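import Mathlib

/-!
# GM53/Chern82: Chernoff bound for independent events
-/

set_option autoImplicit false

namespace Pool.Agent.GM53

open MeasureTheory ProbabilityTheory Filter Topology Finset

variable {Ω : Type*} [mΩ : MeasurableSpace Ω] {μ : Measure Ω} {E : ℕ → Set Ω}

theorem mgf_ind [IsProbabilityMeasure μ] {s : Set Ω} (hs : MeasurableSet s) :
    mgf (s.indicator fun _ => (1 : ℝ)) μ 1 = 1 + (Real.exp 1 - 1) * μ.real s := by
  unfold mgf
  have h : (fun ω => Real.exp (1 * (s.indicator (fun _ => (1 : ℝ)) ω))) =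
      fun ω => 1 + (Real.exp 1 - 1) * (s.indicator (fun _ => (1 : ℝ)) ω) := by
    funext ω
    by_cases hω : ω ∈ s
    · rw [Set.indicator_of_mem hω, mul_one, mul_one]
      ring
    · rw [Set.indicator_of_notMem hω]
      simp
  rw [h]
  have hint : Integrable (s.indicator fun _ => (1 : ℝ)) μ :=
    (integrable_const (1 : ℝ)).indicator hs
  rw [integral_add (integrable_const _) (hint.const_mul _), integral_const_mul,
    integral_indicator_const _ hs]
  simp

theorem chernoff_S [IsProbabilityMeasure μ] (hE : ∀ m, MeasurableSet (E m)) (hi : iIndepSet E μ)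
    (B : Finset ℕ) (t : ℝ) :
    μ.real {ω | 2 * ∑ m ∈ B, μ.real (E m) + t ≤ ∑ m ∈ B, (E m).indicator (fun _ => (1 : ℝ)) ω} ≤
      Real.exp (-t) := by
  have hind : iIndepFun (fun m => (E m).indicator fun _ => (1 : ℝ)) μ :=
    hi.iIndepFun_indicator
  have hmeas : ∀ m, Measurable ((E m).indicator fun _ => (1 : ℝ)) := fun m =>
    measurable_const.indicator (hE m)
  have hone : ∀ m, Integrable (fun ω => Real.exp (1 * (E m).indicator (fun _ => (1 : ℝ)) ω)) μ := by
    intro m
    refine Integrable.of_bound ?_ (Real.exp 1) (Eventually.of_forall fun ω => ?_)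
    · exact ((hmeas m).const_mul 1).exp.aestronglyMeasurable
    · rw [Real.norm_eq_abs, abs_of_pos (Real.exp_pos _)]
      refine Real.exp_le_exp.2 ?_
      rw [one_mul]
      exact Set.indicator_le_self' (fun _ _ => zero_le_one) ω
  have hX : (fun ω => ∑ m ∈ B, (E m).indicator (fun _ => (1 : ℝ)) ω) =
      ∑ m ∈ B, (E m).indicator fun _ => (1 : ℝ) := by
    funext ω
    rw [Finset.sum_apply]
  have hint : Integrable (fun ω => Real.exp (1 * (∑ m ∈ B, (E m).indicator fun _ => (1 : ℝ)) ω)) μ :=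
    hind.integrable_exp_mul_sum hmeas fun m _ => hone m
  have h1 := measure_ge_le_exp_mul_mgf (μ := μ)
    (X := ∑ m ∈ B, (E m).indicator fun _ => (1 : ℝ)) (t := 1)
    (2 * ∑ m ∈ B, μ.real (E m) + t) zero_le_one hint
  have h2 : mgf (∑ m ∈ B, (E m).indicator fun _ => (1 : ℝ)) μ 1 =
      ∏ m ∈ B, (1 + (Real.exp 1 - 1) * μ.real (E m)) := by
    rw [hind.mgf_sum hmeas]
    exact prod_congr rfl fun m _ => mgf_ind (hE m)
  have he : Real.exp 1 - 1 ≤ 2 := by
    have := Real.exp_one_lt_d9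
    linarith
  have he0 : 0 ≤ Real.exp 1 - 1 := by
    have := Real.add_one_le_exp (1 : ℝ)
    linarith
  have h3 : ∏ m ∈ B, (1 + (Real.exp 1 - 1) * μ.real (E m)) ≤
      Real.exp (2 * ∑ m ∈ B, μ.real (E m)) := by
    rw [mul_sum, Real.exp_sum]
    refine prod_le_prod (fun m _ => ?_) (fun m _ => ?_)
    · have := mul_nonneg he0 (measureReal_nonneg (μ := μ) (s := E m))
      linarith
    · have h4 : (Real.exp 1 - 1) * μ.real (E m) ≤ 2 * μ.real (E m) :=
        mul_le_mul_of_nonneg_right he measureReal_nonneg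
      have h5 := Real.add_one_le_exp (2 * μ.real (E m))
      linarith
  have h6 : {ω | 2 * ∑ m ∈ B, μ.real (E m) + t ≤
      (∑ m ∈ B, (E m).indicator fun _ => (1 : ℝ)) ω} =
      {ω | 2 * ∑ m ∈ B, μ.real (E m) + t ≤ ∑ m ∈ B, (E m).indicator (fun _ => (1 : ℝ)) ω} := by
    rw [← hX]
  rw [h6] at h1
  refine h1.trans ?_
  rw [h2]
  calc Real.exp (-1 * (2 * ∑ m ∈ B, μ.real (E m) + t)) *
        ∏ m ∈ B, (1 + (Real.exp 1 - 1) * μ.real (E m))
      ≤ Real.exp (-1 * (2 * ∑ m ∈ B, μ.real (E m) + t)) *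
        Real.exp (2 * ∑ m ∈ B, μ.real (E m)) :=
        mul_le_mul_of_nonneg_left h3 (Real.exp_pos _).le
    _ = Real.exp (-t) := by
        rw [← Real.exp_add]
        congr 1
        ring

end Pool.Agent.GM53
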