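import Pool.Agent.GM53.Defs
import Pool.Agent.PalSieve.Mertens

/-!
# GM53/MertS53: Mertens bounds
-/

set_option autoImplicit false

namespace Pool.Agent.GM53

open Finset

theorem sum_inv_le_S53 : ∃ C : ℝ, 0 < C ∧ ∀ y : ℕ, 3 ≤ y →
    ∑ p ∈ (range (y + 1)).filter Nat.Prime, (1 : ℝ) / p ≤ Real.log (Real.log y) + C := by
  have hl2 : 0 < Real.log 2 := Real.log_pos (by norm_num)
  refine ⟨|Real.log (Real.log 2)| + 9 / Real.log 2 + 1, by positivity, fun y hy => ?_⟩
  have h := (abs_le.1 (Pool.Agent.Sv.abs_sum_inv_sub_le (n := 2) (m := y + 1) le_rfl (by omega))).2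
  have e : (range (y + 1)).filter Nat.Prime = (Ico 2 (y + 1)).filter Nat.Prime := by
    ext p
    simp only [mem_filter, mem_range, mem_Ico]
    constructor
    · rintro ⟨h1, h2⟩
      exact ⟨⟨h2.two_le, h1⟩, h2⟩
    · rintro ⟨h1, h2⟩
      exact ⟨h1.2, h2⟩
  rw [e]
  have hy' : (3 : ℝ) ≤ y := by exact_mod_cast hy
  have hly : 0 < Real.log y := Real.log_pos (by linarith)
  have h1 : Real.log ((y + 1 : ℕ) : ℝ) ≤ 2 * Real.log y := by
    have h2 : ((y + 1 : ℕ) : ℝ) ≤ (y : ℝ) ^ 2 := by
      push_cast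
      nlinarith
    have h3 := Real.log_le_log (by positivity) h2
    rw [Real.log_pow] at h3
    push_cast at h3 ⊢
    exact h3
  have h4 : Real.log (Real.log ((y + 1 : ℕ) : ℝ)) ≤ Real.log 2 + Real.log (Real.log y) := by
    rw [← Real.log_mul (by norm_num) hly.ne']
    refine Real.log_le_log (Real.log_pos ?_) h1
    push_cast
    linarith
  have h5 : Real.log 2 ≤ 1 := by
    have := Real.log_le_sub_one_of_pos (show (0 : ℝ) < 2 by norm_num)
    linarith
  have h6 := neg_abs_le (Real.log (Real.log 2))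
  push_cast at h h4
  linarith

theorem one_le_mert_S53 (y : ℕ) : 1 ≤ mert y := by
  unfold mert
  refine Finset.prod_induction _ (fun x : ℝ => 1 ≤ x) ?_ le_rfl ?_
  · intro a b ha hb
    exact one_le_mul_of_one_le_of_one_le ha hb
  · intro p hp
    have h2 : 2 ≤ p := (mem_filter.1 hp).2.two_le
    have h3 : (2 : ℝ) ≤ p := by exact_mod_cast h2
    have h4 : 1 / (p : ℝ) ≤ 1 / 2 := one_div_le_one_div_of_le (by norm_num) h3
    have h5 : 0 ≤ 1 / (p : ℝ) := by positivity
    rw [one_le_inv₀ (by linarith)]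
    linarith

/-- `∑ 1/(n (n-1)) ≤ 1` -/
lemma ms53_sum_sq (y : ℕ) : ∑ p ∈ Icc 2 y, 1 / ((p : ℝ) * ((p : ℝ) - 1)) ≤ 1 := by
  have h2 : ∀ n : ℕ, 1 ≤ n → ∑ p ∈ Icc 2 n, 1 / ((p : ℝ) * ((p : ℝ) - 1)) = 1 - 1 / n := by
    intro n hn
    induction n, hn using Nat.le_induction with
    | base => simp
    | succ n hn ih =>
      rw [show Icc 2 (n + 1) = insert (n + 1) (Icc 2 n) from ?_, sum_insert (by simp), ih]
      · have hn' : (1 : ℝ) ≤ n := by exact_mod_cast hn
        have h0 : (n : ℝ) ≠ 0 := by linarith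
        have h1 : (n : ℝ) + 1 ≠ 0 := by linarith
        push_cast
        rw [add_sub_cancel_right]
        field_simp
        ring
      · ext p
        simp only [mem_insert, mem_Icc]
        omega
  rcases Nat.eq_zero_or_pos y with h0 | h0
  · subst h0; simp
  · rw [h2 y h0]
    have : (0 : ℝ) ≤ 1 / y := by positivity
    linarith

theorem mert_le_S53 : ∃ C : ℝ, 0 < C ∧ ∀ y : ℕ, 2 ≤ y → mert y ≤ C * Real.log y := by
  obtain ⟨C, hC, hs⟩ := sum_inv_le_S53
  have hl2 : 0 < Real.log 2 := Real.log_pos (by norm_num)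
  refine ⟨Real.exp (C + 1) + 2 / Real.log 2, by positivity, fun y hy => ?_⟩
  have hy' : (2 : ℝ) ≤ y := by exact_mod_cast hy
  have hly : Real.log 2 ≤ Real.log y := Real.log_le_log (by norm_num) hy'
  rcases Nat.lt_or_ge y 3 with h3 | h3
  · have : y = 2 := by omega
    subst this
    have e : mert 2 = 2 := by
      unfold mert
      rw [show (range (2 + 1)).filter Nat.Prime = {2} from by decide]
      simp
      norm_num
    rw [e, add_mul]
    push_cast
    rw [div_mul_cancel₀ _ hl2.ne']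
    have : 0 ≤ Real.exp (C + 1) * Real.log 2 := by positivity
    linarith
  · have hlpos : 0 < Real.log y := lt_of_lt_of_le hl2 hly
    have h1 : mert y ≤ Real.exp (∑ p ∈ (range (y + 1)).filter Nat.Prime,
        ((1 : ℝ) / p + 1 / ((p : ℝ) * ((p : ℝ) - 1)))) := by
      unfold mert
      rw [Real.exp_sum]
      refine prod_le_prod ?_ ?_
      · intro p hp
        have h2 : 2 ≤ p := (mem_filter.1 hp).2.two_le
        have h3 : (2 : ℝ) ≤ p := by exact_mod_cast h2
        have h4 : 1 / (p : ℝ) ≤ 1 / 2 := one_div_le_one_div_of_le (by norm_num) h3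
        exact inv_nonneg.2 (by linarith)
      · intro p hp
        have h2 : 2 ≤ p := (mem_filter.1 hp).2.two_le
        have h3 : (2 : ℝ) ≤ p := by exact_mod_cast h2
        have h0 : (p : ℝ) ≠ 0 := by linarith
        have h1 : (p : ℝ) - 1 ≠ 0 := by linarith
        have e : (1 - 1 / (p : ℝ))⁻¹ = 1 / (p : ℝ) + 1 / ((p : ℝ) * ((p : ℝ) - 1)) + 1 := by
          rw [show 1 - 1 / (p : ℝ) = ((p : ℝ) - 1) / p by field_simp, inv_div]
          field_simp
          ring
        rw [e]
        exact Real.add_one_le_exp _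
    have h2 : ∑ p ∈ (range (y + 1)).filter Nat.Prime,
        ((1 : ℝ) / p + 1 / ((p : ℝ) * ((p : ℝ) - 1))) ≤ Real.log (Real.log y) + (C + 1) := by
      rw [sum_add_distrib]
      have h3 := hs y h3
      have h4 : ∑ p ∈ (range (y + 1)).filter Nat.Prime, 1 / ((p : ℝ) * ((p : ℝ) - 1)) ≤ 1 := by
        refine le_trans (sum_le_sum_of_subset_of_nonneg ?_ ?_) (ms53_sum_sq y)
        · intro p hp
          simp only [mem_filter, mem_range, mem_Icc] at hp ⊢
          exact ⟨hp.2.two_le, by omega⟩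
        · intro p hp _
          have : (2 : ℝ) ≤ p := by exact_mod_cast (mem_Icc.1 hp).1
          exact div_nonneg zero_le_one (mul_nonneg (by linarith) (by linarith))
      linarith
    refine h1.trans ((Real.exp_le_exp.2 h2).trans ?_)
    rw [Real.exp_add, Real.exp_log hlpos, add_mul]
    have : 0 ≤ 2 / Real.log 2 * Real.log y := by positivity
    linarith

end Pool.Agent.GM53
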