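import Pool.Agent.GM53.Defs
import Pool.Agent.PalSieve.Mertens
import Pool.Agent.GM53.MertS53

/-!
# GM53/Mert: Mertens bounds (proofs in MertS53)
-/

set_option autoImplicit false

namespace Pool.Agent.GM53

open Finset

/-- `PalSieve`'s `abs_sum_inv_sub_le` with `n = 2`, `m = y + 1`. -/
theorem sum_inv_le : ∃ C : ℝ, 0 < C ∧ ∀ y : ℕ, 3 ≤ y →
    ∑ p ∈ (range (y + 1)).filter Nat.Prime, (1 : ℝ) / p ≤ Real.log (Real.log y) + C :=
  sum_inv_le_S53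

/-- every factor is at least `1` -/
theorem one_le_mert (y : ℕ) : 1 ≤ mert y :=
  one_le_mert_S53 y

/-- `(1 - 1/p)⁻¹ ≤ exp (1/p + 1/(p (p-1)))` and `sum_inv_le`. -/
theorem mert_le : ∃ C : ℝ, 0 < C ∧ ∀ y : ℕ, 2 ≤ y → mert y ≤ C * Real.log y :=
  mert_le_S53

end Pool.Agent.GM53
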