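import Pool.Agent.GM53.Defs
import Pool.Agent.CR53.Prob

/-!
# GM53/BlkS18: many disjoint blocks of independent events (helper18)
-/

set_option autoImplicit false

namespace Pool.Agent.GM53

open MeasureTheory ProbabilityTheory Filter Topology Finset Pool.Agent.CR53

theorem meas_blk {Ω : Type*} {m0 : MeasurableSpace Ω} (E : ℕ → Set Ω) (W : Finset ℕ)
    (h : ∀ m ∈ W, MeasurableSet (E m)) : MeasurableSet {ω | ∃ m ∈ W, ω ∉ E m} := by
  have e : {ω | ∃ m ∈ W, ω ∉ E m} = ⋃ m ∈ W, (E m)ᶜ := by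
    ext ω
    simp
  rw [e]
  exact Finset.measurableSet_biUnion W (fun m hm => (h m hm).compl)

theorem meas_all {Ω : Type*} {m0 : MeasurableSpace Ω} (E : ℕ → Set Ω) (W : ℕ → Finset ℕ) (I : ℕ)
    (h : ∀ i < I, ∀ m ∈ W i, MeasurableSet (E m)) :
    MeasurableSet {ω | ∀ i < I, ∃ m ∈ W i, ω ∉ E m} := by
  have e : {ω | ∀ i < I, ∃ m ∈ W i, ω ∉ E m} =
      ⋂ i ∈ range I, {ω | ∃ m ∈ W i, ω ∉ E m} := by
    ext ω
    simp
  rw [e]
  exact Finset.measurableSet_biInter (range I)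
    (fun i hi => meas_blk E (W i) (h i (mem_range.1 hi)))

variable {Ω : Type*} [mΩ : MeasurableSpace Ω] {μ : Measure Ω} {E : ℕ → Set Ω}

theorem blk_one [IsProbabilityMeasure μ] (hE : ∀ m, MeasurableSet (E m)) (hi : iIndepSet E μ)
    (W : Finset ℕ) (k : ℕ) (q : ℝ) (h0 : 0 ≤ q) (h1 : q ≤ 1) (hk : W.card ≤ k)
    (hq : ∀ m ∈ W, q ≤ μ.real (E m)) :
    μ.real {ω | ∃ m ∈ W, ω ∉ E m} ≤ 1 - q ^ k := by
  have e : {ω | ∃ m ∈ W, ω ∉ E m} = (⋂ m ∈ W, E m)ᶜ := by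
    ext ω
    simp
  have hm : MeasurableSet (⋂ m ∈ W, E m) := Finset.measurableSet_biInter W fun m _ => hE m
  rw [e, probReal_compl_eq_one_sub hm]
  have h2 : μ.real (⋂ m ∈ W, E m) = ∏ m ∈ W, μ.real (E m) := by
    have h3 : μ (⋂ m ∈ W, E m) = ∏ m ∈ W, μ (E m) := by
      refine (iIndepSet_iff E μ).1 hi W (f := E) fun m _ => ?_
      exact MeasurableSpace.measurableSet_generateFrom (Set.mem_singleton _)
    rw [Measure.real, h3, ENNReal.toReal_prod]
    rfl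
  have h4 : q ^ k ≤ ∏ m ∈ W, μ.real (E m) := by
    calc q ^ k ≤ q ^ W.card := pow_le_pow_of_le_one h0 h1 hk
      _ = ∏ _m ∈ W, q := by rw [prod_const]
      _ ≤ ∏ m ∈ W, μ.real (E m) := prod_le_prod (fun _ _ => h0) hq
  rw [h2]
  linarith

theorem blk_prob_P [IsProbabilityMeasure μ] (hE : ∀ m, MeasurableSet (E m)) (hi : iIndepSet E μ)
    (W : ℕ → Finset ℕ) (I k : ℕ) (q : ℝ) (h0 : 0 ≤ q) (h1 : q ≤ 1)
    (hd : ∀ i < I, ∀ j < I, i ≠ j → Disjoint (W i) (W j)) (hk : ∀ i < I, (W i).card ≤ k)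
    (hq : ∀ i < I, ∀ m ∈ W i, q ≤ μ.real (E m)) :
    μ.real {ω | ∀ i < I, ∃ m ∈ W i, ω ∉ E m} ≤ (1 - q ^ k) ^ I := by
  have hqk : 0 ≤ 1 - q ^ k := by
    have := pow_le_one₀ (n := k) h0 h1
    linarith
  induction I with
  | zero =>
    rw [pow_zero]
    exact measureReal_le_one
  | succ I ih =>
    have ih' := ih (fun i hi j hj => hd i (by omega) j (by omega)) (fun i hi => hk i (by omega))
      (fun i hi => hq i (by omega))
    have e : {ω | ∀ i < I + 1, ∃ m ∈ W i, ω ∉ E m} =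
        {ω | ∃ m ∈ W I, ω ∉ E m} ∩ {ω | ∀ i < I, ∃ m ∈ W i, ω ∉ E m} := by
      ext ω
      constructor
      · intro h
        exact ⟨h I (by omega), fun i hi => h i (by omega)⟩
      · rintro ⟨h2, h3⟩ i hi
        rcases Nat.lt_succ_iff_lt_or_eq.1 hi with h4 | h4
        · exact h3 i h4
        · rw [h4]
          exact h2
    have hind := sig_indep hE hi (S := ((W I : Finset ℕ) : Set ℕ))
      (T := {m | ∃ i < I, m ∈ W i}) (by
        rw [Set.disjoint_left]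
        rintro m hm ⟨i, hi, hmi⟩
        exact Finset.disjoint_left.1 (hd i (by omega) I (by omega) (by omega)) hmi hm)
    have h4 := (Indep_iff _ _ _).1 hind {ω | ∃ m ∈ W I, ω ∉ E m}
      {ω | ∀ i < I, ∃ m ∈ W i, ω ∉ E m}
      (meas_blk (m0 := sig E ((W I : Finset ℕ) : Set ℕ)) E (W I) fun m hm => meas_E hm)
      (meas_all (m0 := sig E {m | ∃ i < I, m ∈ W i}) E W I fun i hi m hm =>
        meas_E (S := {m | ∃ i < I, m ∈ W i}) ⟨i, hi, hm⟩)
    rw [e, Measure.real, h4, ENNReal.toReal_mul, pow_succ, mul_comm]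
    exact mul_le_mul ih' (blk_one hE hi (W I) k q h0 h1 (hk I (by omega)) (hq I (by omega)))
      measureReal_nonneg (pow_nonneg hqk I)

end Pool.Agent.GM53
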