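import Pool.Agent.GM53.Defs
import Pool.Agent.CR53.Prob
import Pool.Agent.GM53.Chern82
import Pool.Agent.GM53.BlkS18

/-!
# GM53/Blk: many disjoint blocks of independent events (STUB)
-/

set_option autoImplicit false

namespace Pool.Agent.GM53

open MeasureTheory ProbabilityTheory Filter Topology Finset Pool.Agent.CR53

variable {Ω : Type*} [mΩ : MeasurableSpace Ω] {μ : Measure Ω} {E : ℕ → Set Ω}

/-- PROOF. Induction on `I`. The event for `I` is measurable in `sig E (W I)`, the event for all `i < I` in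
`sig E (⋃_{i<I} W i)`; the two index sets are disjoint (`CR53.sig_indep`); and
`μ (all m ∈ W I in E) = ∏ μ (E m) ≥ q^k` (`iIndepSet`), so the complement has measure `≤ 1 - q^k`. -/
theorem blk_prob [IsProbabilityMeasure μ] (hE : ∀ m, MeasurableSet (E m)) (hi : iIndepSet E μ)
    (W : ℕ → Finset ℕ) (I k : ℕ) (q : ℝ) (h0 : 0 ≤ q) (h1 : q ≤ 1)
    (hd : ∀ i < I, ∀ j < I, i ≠ j → Disjoint (W i) (W j)) (hk : ∀ i < I, (W i).card ≤ k)
    (hq : ∀ i < I, ∀ m ∈ W i, q ≤ μ.real (E m)) :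
    μ.real {ω | ∀ i < I, ∃ m ∈ W i, ω ∉ E m} ≤ (1 - q ^ k) ^ I := by
  exact blk_prob_P hE hi W I k q h0 h1 hd hk hq

/-- PROOF. Chernoff: `E exp (∑ 1_{E m}) = ∏ (1 + (e - 1) μ (E m)) ≤ exp ((e - 1) S)`, `S = ∑ μ (E m)`, and `e - 1 ≤ 2`;
Markov. (`iIndepFun.mgf_sum`, or induction on `B` with `CR53.sig_indep`.) -/
theorem chernoff [IsProbabilityMeasure μ] (hE : ∀ m, MeasurableSet (E m)) (hi : iIndepSet E μ)
    (B : Finset ℕ) (t : ℝ) :
    μ.real {ω | 2 * ∑ m ∈ B, μ.real (E m) + t ≤ ∑ m ∈ B, (E m).indicator (fun _ => (1 : ℝ)) ω} ≤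
      Real.exp (-t) :=
  chernoff_S hE hi B t

end Pool.Agent.GM53
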