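import Pool.Agent.GM53.Defs

/-!
# GM53/CardUp: odd integers of an interval in the upper classes modulo `p`

`card_up_S`: the odd `h` with `h % p = r` form one class modulo `2 p`; there are `(p + 1) / 2` upper residues `r`.
-/

set_option autoImplicit false

namespace Pool.Agent.GM53

open Finset

theorem cu_class (a b r v : ℕ) (hr : 0 < r) (hab : a ≤ b) :
    ((((Ico a b).filter fun x => x ≡ v [MOD r]).card : ℕ) : ℝ) ≤ ((b : ℝ) - a) / r + 1 := by
  have h := Nat.Ico_filter_modEq_card a b hr v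
  have h1 : ((((Ico a b).filter fun x => x ≡ v [MOD r]).card : ℕ) : ℝ) =
      (((max (⌈((b : ℚ) - v) / r⌉ - ⌈((a : ℚ) - v) / r⌉) 0 : ℤ)) : ℝ) := by
    rw [← h]
    norm_cast
  rw [h1]
  have hr' : (0 : ℚ) < r := by exact_mod_cast hr
  have h2 : (⌈((b : ℚ) - v) / r⌉ : ℚ) < ((b : ℚ) - v) / r + 1 := Int.ceil_lt_add_one _
  have h3 : ((a : ℚ) - v) / r ≤ (⌈((a : ℚ) - v) / r⌉ : ℚ) := Int.le_ceil _
  have hab' : (a : ℚ) ≤ b := by exact_mod_cast hab
  have h4 : (((max (⌈((b : ℚ) - v) / r⌉ - ⌈((a : ℚ) - v) / r⌉) 0 : ℤ)) : ℚ) ≤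
      ((b : ℚ) - a) / r + 1 := by
    rw [Int.cast_max, max_le_iff]
    constructor
    · push_cast
      have h5 : ((b : ℚ) - v) / r - ((a : ℚ) - v) / r = ((b : ℚ) - a) / r := by ring
      linarith
    · have h6 : 0 ≤ ((b : ℚ) - a) / r := div_nonneg (by linarith) hr'.le
      push_cast
      linarith
  have h5 : (((max (⌈((b : ℚ) - v) / r⌉ - ⌈((a : ℚ) - v) / r⌉) 0 : ℤ) : ℚ) : ℝ) ≤
      (((((b : ℚ) - a) / r + 1 : ℚ)) : ℝ) := by exact_mod_cast h4
  push_cast at h5 ⊢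
  exact h5

open Classical in
theorem card_up_S (p T : ℕ) (hp : 3 ≤ p) (hodd : Odd p) :
    (((Ico T (2 * T)).filter fun h => Odd h ∧ Up p h).card : ℝ) ≤
      ((T : ℝ) / (2 * p) + 1) * ((p + 1) / 2) := by
  obtain ⟨q, rfl⟩ := hodd
  set U : Finset ℕ := insert 0 (Ico (q + 1) (2 * q + 1)) with hU
  have hUc : U.card ≤ q + 1 := by
    refine (Finset.card_insert_le _ _).trans ?_
    rw [Nat.card_Ico]
    omega
  have hsub : ((Ico T (2 * T)).filter fun h => Odd h ∧ Up (2 * q + 1) h) ⊆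
      U.biUnion (fun r => (Ico T (2 * T)).filter fun h => Odd h ∧ h % (2 * q + 1) = r) := by
    intro h hh
    rw [mem_filter] at hh
    rw [mem_biUnion]
    refine ⟨h % (2 * q + 1), ?_, mem_filter.2 ⟨hh.1, hh.2.1, rfl⟩⟩
    have h1 : h % (2 * q + 1) < 2 * q + 1 := Nat.mod_lt _ (by omega)
    rw [hU, mem_insert, mem_Ico]
    rcases hh.2.2 with h2 | h2
    · exact Or.inl h2
    · right
      omega
  have hone : ∀ r ∈ U, ((((Ico T (2 * T)).filter fun h => Odd h ∧ h % (2 * q + 1) = r).card : ℕ) : ℝ)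
      ≤ (T : ℝ) / (2 * ((2 * q + 1 : ℕ) : ℝ)) + 1 := by
    intro r _
    rcases Finset.eq_empty_or_nonempty
      ((Ico T (2 * T)).filter fun h => Odd h ∧ h % (2 * q + 1) = r) with h0 | ⟨v, hv⟩
    · rw [h0]
      simp only [card_empty, Nat.cast_zero]
      positivity
    · rw [mem_filter] at hv
      have h1 : ((Ico T (2 * T)).filter fun h => Odd h ∧ h % (2 * q + 1) = r) ⊆
          (Ico T (2 * T)).filter fun h => h ≡ v [MOD 2 * (2 * q + 1)] := by
        intro h hh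
        rw [mem_filter] at hh ⊢
        refine ⟨hh.1, ?_⟩
        have h2 : h ≡ v [MOD 2] := by
          unfold Nat.ModEq
          rw [Nat.odd_iff.1 hh.2.1, Nat.odd_iff.1 hv.2.1]
        have h3 : h ≡ v [MOD 2 * q + 1] := by
          unfold Nat.ModEq
          rw [hh.2.2, hv.2.2]
        have hco : Nat.Coprime 2 (2 * q + 1) := by
          rw [Nat.coprime_two_left]
          exact ⟨q, rfl⟩
        exact (Nat.modEq_and_modEq_iff_modEq_mul hco).1 ⟨h2, h3⟩
      have h4 := cu_class T (2 * T) (2 * (2 * q + 1)) v (by omega) (by omega)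
      have h5 : ((((Ico T (2 * T)).filter fun h => Odd h ∧ h % (2 * q + 1) = r).card : ℕ) : ℝ) ≤
          ((((Ico T (2 * T)).filter fun h => h ≡ v [MOD 2 * (2 * q + 1)]).card : ℕ) : ℝ) := by
        exact_mod_cast card_le_card h1
      refine h5.trans (h4.trans (le_of_eq ?_))
      push_cast
      ring
  have hB : (0 : ℝ) ≤ (T : ℝ) / (2 * ((2 * q + 1 : ℕ) : ℝ)) + 1 := by positivity
  calc (((Ico T (2 * T)).filter fun h => Odd h ∧ Up (2 * q + 1) h).card : ℝ)
      ≤ ((U.biUnion (fun r => (Ico T (2 * T)).filter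
          fun h => Odd h ∧ h % (2 * q + 1) = r)).card : ℝ) := by
        exact_mod_cast card_le_card hsub
    _ ≤ ∑ r ∈ U, ((((Ico T (2 * T)).filter
          fun h => Odd h ∧ h % (2 * q + 1) = r).card : ℕ) : ℝ) := by
        exact_mod_cast card_biUnion_le
    _ ≤ ∑ _r ∈ U, ((T : ℝ) / (2 * ((2 * q + 1 : ℕ) : ℝ)) + 1) := sum_le_sum hone
    _ = (U.card : ℝ) * ((T : ℝ) / (2 * ((2 * q + 1 : ℕ) : ℝ)) + 1) := by
        rw [sum_const, nsmul_eq_mul]
    _ ≤ ((q : ℝ) + 1) * ((T : ℝ) / (2 * ((2 * q + 1 : ℕ) : ℝ)) + 1) := by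
        apply mul_le_mul_of_nonneg_right _ hB
        exact_mod_cast hUc
    _ = ((T : ℝ) / (2 * ((2 * q + 1 : ℕ) : ℝ)) + 1) * ((((2 * q + 1 : ℕ) : ℝ) + 1) / 2) := by
        push_cast
        ring

end Pool.Agent.GM53
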