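import Pool.Agent.GM53.Mert
import Pool.Agent.GM53.CardUp

/-!
# GM53/BlockS53: the weighted sum over a dyadic block of odd integers
-/

set_option autoImplicit false

namespace Pool.Agent.GM53

open Finset Filter Topology

/-- `1 - 2/(p+1) ≥ exp (-2/(p-1))` for `p ≥ 3` -/
lemma s53_factor (p : ℕ) (hp : 3 ≤ p) :
    Real.exp (-(2 / ((p : ℝ) - 1))) ≤ 1 - 2 / ((p : ℝ) + 1) := by
  have hp' : (3 : ℝ) ≤ p := by exact_mod_cast hp
  have hpos : 0 < 1 - 2 / ((p : ℝ) + 1) := by
    rw [sub_pos, div_lt_one (by linarith)]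
    linarith
  rw [← Real.le_log_iff_exp_le hpos]
  have h := Real.one_sub_inv_le_log_of_pos hpos
  refine le_trans (le_of_eq ?_) h
  have h1 : (p : ℝ) - 1 ≠ 0 := by linarith
  have h2 : (p : ℝ) + 1 ≠ 0 := by linarith
  have h3 : 1 - 2 / ((p : ℝ) + 1) = ((p : ℝ) - 1) / (p + 1) := by
    field_simp
    ring
  rw [h3, inv_div]
  field_simp
  ring

open Classical in
/-- the exponent -/
noncomputable def s53_Y (y h : ℕ) : ℝ :=
  ∑ p ∈ oddPrimes y, if Up p h then 2 / ((p : ℝ) - 1) else 0

lemma s53_wt_ge (y h : ℕ) : Real.exp (-(s53_Y y h)) ≤ wt y h := by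
  classical
  unfold s53_Y wt
  rw [← sum_neg_distrib, Real.exp_sum]
  refine prod_le_prod (fun p _ => (Real.exp_pos _).le) fun p hp => ?_
  have hp3 : 3 ≤ p := (mem_Icc.1 (mem_filter.1 hp).1).1
  by_cases hU : Up p h
  · rw [if_pos hU, if_pos hU]
    exact s53_factor p hp3
  · rw [if_neg hU, if_neg hU]
    simp

lemma s53_Y_le (T y h : ℕ) (h1 : 1 ≤ h) (h2 : h < 2 * T) : s53_Y y h ≤ s53_Y (4 * T) h := by
  classical
  unfold s53_Y
  have hnn : ∀ p : ℕ, 3 ≤ p → 0 ≤ (if Up p h then 2 / ((p : ℝ) - 1) else 0) := by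
    intro p hp
    have hp' : (3 : ℝ) ≤ p := by exact_mod_cast hp
    split_ifs
    · exact div_nonneg (by norm_num) (by linarith)
    · exact le_rfl
  have e : ∑ p ∈ oddPrimes y, (if Up p h then 2 / ((p : ℝ) - 1) else 0)
      = ∑ p ∈ (oddPrimes y).filter (fun p => p ≤ 4 * T), (if Up p h then 2 / ((p : ℝ) - 1) else 0) := by
    rw [sum_filter]
    refine sum_congr rfl fun p hp => ?_
    by_cases h4 : p ≤ 4 * T
    · rw [if_pos h4]
    · rw [if_neg h4, if_neg]
      unfold Up
      rw [Nat.mod_eq_of_lt (by omega)]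
      omega
  rw [e]
  refine sum_le_sum_of_subset_of_nonneg ?_ ?_
  · intro p hp
    unfold oddPrimes at hp ⊢
    simp only [mem_filter, mem_Icc] at hp ⊢
    exact ⟨⟨hp.1.1.1, hp.2⟩, hp.1.2⟩
  · intro p hp _
    exact hnn p (mem_Icc.1 (mem_filter.1 hp).1).1

/-- `∑ 1/(p (p-1)) ≤ 1` -/
lemma s53_sum_sq (y : ℕ) : ∑ p ∈ oddPrimes y, 1 / ((p : ℝ) * ((p : ℝ) - 1)) ≤ 1 := by
  have h1 : ∑ p ∈ oddPrimes y, 1 / ((p : ℝ) * ((p : ℝ) - 1)) ≤
      ∑ p ∈ Icc 2 y, 1 / ((p : ℝ) * ((p : ℝ) - 1)) := by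
    refine sum_le_sum_of_subset_of_nonneg ?_ ?_
    · intro p hp
      unfold oddPrimes at hp
      simp only [mem_filter, mem_Icc] at hp ⊢
      omega
    · intro p hp _
      have : (2 : ℝ) ≤ p := by exact_mod_cast (mem_Icc.1 hp).1
      exact div_nonneg zero_le_one (mul_nonneg (by linarith) (by linarith))
  refine h1.trans ?_
  have h2 : ∀ n : ℕ, 1 ≤ n → ∑ p ∈ Icc 2 n, 1 / ((p : ℝ) * ((p : ℝ) - 1)) = 1 - 1 / n := by
    intro n hn
    induction n, hn using Nat.le_induction with
    | base => simp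
    | succ n hn ih =>
      rw [show Icc 2 (n + 1) = insert (n + 1) (Icc 2 n) from ?_, sum_insert (by simp), ih]
      · have hn' : (1 : ℝ) ≤ n := by exact_mod_cast hn
        have h0 : (n : ℝ) ≠ 0 := by linarith
        have h1 : (n : ℝ) + 1 ≠ 0 := by linarith
        push_cast
        rw [add_sub_cancel_right]
        field_simp
        ring
      · ext p
        simp only [mem_insert, mem_Icc]
        omega
  rcases Nat.eq_zero_or_pos y with h0 | h0
  · subst h0; simp
  · rw [h2 y h0]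
    have : (0 : ℝ) ≤ 1 / y := by positivity
    linarith

/-- the sum of the exponents over a block -/
lemma s53_sum_Y (C : ℝ) (hC : ∀ y : ℕ, 3 ≤ y →
    ∑ p ∈ (range (y + 1)).filter Nat.Prime, (1 : ℝ) / p ≤ Real.log (Real.log y) + C)
    (T : ℕ) (hT : 1 ≤ T) :
    ∑ h ∈ (Ico T (2 * T)).filter (fun h => Odd h), s53_Y (4 * T) h ≤
      (T : ℝ) / 2 * (Real.log (Real.log ((4 * T : ℕ) : ℝ)) + C + 18) := by
  classical
  unfold s53_Y
  rw [sum_comm]
  have h1 : ∀ p ∈ oddPrimes (4 * T),
      ∑ h ∈ (Ico T (2 * T)).filter (fun h => Odd h), (if Up p h then 2 / ((p : ℝ) - 1) else 0) ≤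
        (T : ℝ) / 2 * (1 / p) + T * (1 / ((p : ℝ) * ((p : ℝ) - 1))) + 2 := by
    intro p hp
    have hp3 : 3 ≤ p := (mem_Icc.1 (mem_filter.1 hp).1).1
    have hpp : p.Prime := (mem_filter.1 hp).2
    have hodd : Odd p := hpp.odd_of_ne_two (by omega)
    have hp' : (3 : ℝ) ≤ p := by exact_mod_cast hp3
    rw [← sum_filter, filter_filter, sum_const, nsmul_eq_mul]
    have h2 := card_up_S p T hp3 hodd
    have h3 : 0 ≤ 2 / ((p : ℝ) - 1) := div_nonneg (by norm_num) (by linarith)
    refine (mul_le_mul_of_nonneg_right h2 h3).trans ?_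
    have hT0 : (0 : ℝ) ≤ T := Nat.cast_nonneg T
    have hm : (p : ℝ) - 1 ≠ 0 := by linarith
    have hz : (p : ℝ) ≠ 0 := by linarith
    have e : ((T : ℝ) / (2 * p) + 1) * ((p + 1) / 2) * (2 / ((p : ℝ) - 1)) =
        (T : ℝ) / 2 * (1 / p) + T * (1 / ((p : ℝ) * ((p : ℝ) - 1))) + ((p : ℝ) + 1) / (p - 1) := by
      field_simp
      ring
    rw [e]
    have h5 : ((p : ℝ) + 1) / (p - 1) ≤ 2 := by
      rw [div_le_iff₀ (by linarith)]
      linarith
    linarith
  refine (sum_le_sum h1).trans ?_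
  rw [sum_add_distrib, sum_add_distrib, ← mul_sum, ← mul_sum, sum_const, nsmul_eq_mul]
  have hT0 : (1 : ℝ) ≤ T := by exact_mod_cast hT
  have h2 := s53_sum_sq (4 * T)
  have h3 : ∑ p ∈ oddPrimes (4 * T), 1 / (p : ℝ) ≤ Real.log (Real.log ((4 * T : ℕ) : ℝ)) + C := by
    refine le_trans (sum_le_sum_of_subset_of_nonneg ?_ ?_) (hC (4 * T) (by omega))
    · intro p hp
      unfold oddPrimes at hp
      simp only [mem_filter, mem_Icc, mem_range] at hp ⊢
      exact ⟨by omega, hp.2⟩
    · intro p _ _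
      positivity
  have h4 : ((oddPrimes (4 * T)).card : ℝ) ≤ 4 * T := by
    have : (oddPrimes (4 * T)).card ≤ 4 * T := by
      unfold oddPrimes
      refine (card_filter_le _ _).trans ?_
      rw [Nat.card_Icc]
      omega
    exact_mod_cast this
  have h5 := mul_le_mul_of_nonneg_left h3 (show (0 : ℝ) ≤ (T : ℝ) / 2 by positivity)
  have h6 := mul_le_mul_of_nonneg_left h2 (show (0 : ℝ) ≤ (T : ℝ) by positivity)
  nlinarith

/-- number of odd integers in a block -/
lemma s53_card_odd (T : ℕ) :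
    ((T : ℝ) - 1) / 2 ≤ (((Ico T (2 * T)).filter fun h => Odd h).card : ℝ) := by
  have h : ∀ a n : ℕ, n ≤ 2 * ((Ico a (a + n)).filter fun h => Odd h).card + 1 := by
    intro a n
    induction n using Nat.strong_induction_on with
    | _ n ih =>
      rcases Nat.lt_or_ge n 2 with h | h
      · omega
      · obtain ⟨k, rfl⟩ : ∃ k, n = k + 2 := ⟨n - 2, by omega⟩
        have h1 := ih k (by omega)
        have e : (Ico a (a + (k + 2))).filter (fun h => Odd h) =
            ((Ico a (a + k)).filter fun h => Odd h) ∪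
              ((Ico (a + k) (a + k + 2)).filter fun h => Odd h) := by
          rw [← filter_union]
          congr 1
          rw [Ico_union_Ico_eq_Ico (by omega) (by omega)]
          rfl
        have hd : Disjoint ((Ico a (a + k)).filter fun h => Odd h)
              ((Ico (a + k) (a + k + 2)).filter fun h => Odd h) := by
          rw [disjoint_left]
          intro x hx hy
          simp only [mem_filter, mem_Ico] at hx hy
          omega
        rw [e, card_union_of_disjoint hd]
        have h2 : 1 ≤ ((Ico (a + k) (a + k + 2)).filter fun h => Odd h).card := by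
          rw [Nat.one_le_iff_ne_zero, ← Nat.pos_iff_ne_zero, card_pos]
          rcases Nat.even_or_odd (a + k) with hh | hh
          · exact ⟨a + k + 1, by simp only [mem_filter, mem_Ico]; exact ⟨by omega, hh.add_one⟩⟩
          · exact ⟨a + k, by simp only [mem_filter, mem_Ico]; exact ⟨by omega, hh⟩⟩
        omega
  have h1 := h T T
  rw [← two_mul] at h1
  have h2 : (T : ℝ) ≤ 2 * (((Ico T (2 * T)).filter fun h => Odd h).card : ℝ) + 1 := by
    exact_mod_cast h1
  linarith

theorem block_ge_S53 : ∃ c : ℝ, 0 < c ∧ ∃ T₀ : ℕ, 2 ≤ T₀ ∧ ∀ T y : ℕ, T₀ ≤ T →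
    c / Real.log T ≤ ∑ h ∈ (Ico T (2 * T)).filter (fun h => Odd h), (1 / (h : ℝ)) * wt y h := by
  obtain ⟨C, hC0, hC⟩ := sum_inv_le
  have hev : ∀ᶠ T : ℕ in atTop,
      Real.log (Real.log ((4 * T : ℕ) : ℝ)) + C + 18 ≤ 3 / 4 * T - 1 := by
    have h1 : ∀ᶠ x : ℝ in atTop, Real.log x ≤ 1 / 16 * x := by
      have := (Real.isLittleO_log_id_atTop).bound (show (0 : ℝ) < 1 / 16 by norm_num)
      filter_upwards [this, eventually_ge_atTop (1 : ℝ)] with x hx h1
      simp only [id] at hx
      rw [Real.norm_eq_abs, Real.norm_eq_abs, abs_of_nonneg (Real.log_nonneg h1),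
        abs_of_nonneg (by linarith : (0 : ℝ) ≤ x)] at hx
      exact hx
    have h2 : Tendsto (fun T : ℕ => ((4 * T : ℕ) : ℝ)) atTop atTop := by
      refine tendsto_natCast_atTop_atTop.comp ?_
      exact tendsto_id.const_mul_atTop' (by norm_num)
    filter_upwards [h2.eventually h1, eventually_ge_atTop (2 * ⌈C⌉₊ + 40), eventually_ge_atTop 1]
      with T hT hT2 hT1
    have hT1' : (1 : ℝ) ≤ T := by exact_mod_cast hT1
    have h4 : ((4 * T : ℕ) : ℝ) = 4 * T := by push_cast; ring
    rw [h4] at hT ⊢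
    have hlog : 0 ≤ Real.log (4 * T) := Real.log_nonneg (by linarith)
    have h5 : Real.log (Real.log (4 * T)) ≤ Real.log (4 * T) := by
      rcases hlog.eq_or_lt with h | h
      · rw [← h]; simp
      · have := Real.log_le_sub_one_of_pos h
        linarith
    have h6 : (2 * (⌈C⌉₊ : ℝ) + 40) ≤ T := by exact_mod_cast hT2
    have h7 := Nat.le_ceil C
    linarith
  obtain ⟨T₁, hT₁⟩ := eventually_atTop.1 hev
  refine ⟨Real.exp (-(C + 18)) / 32, by positivity, max T₁ 4, by omega, fun T y hT => ?_⟩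
  have hT4 : 4 ≤ T := le_trans (le_max_right _ _) hT
  have hTM := hT₁ T (le_trans (le_max_left _ _) hT)
  set M : ℝ := Real.log (Real.log ((4 * T : ℕ) : ℝ)) + C + 18 with hM
  have hT4' : (4 : ℝ) ≤ T := by exact_mod_cast hT4
  have hcast : ((4 * T : ℕ) : ℝ) = 4 * T := by push_cast; ring
  have hl1 : 1 < Real.log (4 * T) := by
    rw [Real.lt_log_iff_exp_lt (by linarith)]
    have := Real.exp_one_lt_d9
    linarith
  have hM0 : 0 ≤ M := by
    have : 0 ≤ Real.log (Real.log ((4 * T : ℕ) : ℝ)) := by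
      rw [hcast]; exact Real.log_nonneg hl1.le
    linarith
  have hsum := s53_sum_Y C hC T (by omega)
  have hcard := s53_card_odd T
  set S := (Ico T (2 * T)).filter (fun h => Odd h) with hS
  have key : Real.exp (-M) * (T / 8) ≤ ∑ h ∈ S, wt y h := by
    calc Real.exp (-M) * (T / 8) ≤ Real.exp (-M) * ((S.card : ℝ) * (1 + M) - ∑ h ∈ S, s53_Y (4 * T) h) := by
          refine mul_le_mul_of_nonneg_left ?_ (Real.exp_pos _).le
          have h1 : ((T : ℝ) - 1) / 2 * (1 + M) ≤ (S.card : ℝ) * (1 + M) :=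
            mul_le_mul_of_nonneg_right hcard (by linarith)
          nlinarith
      _ = ∑ h ∈ S, Real.exp (-M) * (1 + (M - s53_Y (4 * T) h)) := by
          rw [← mul_sum]
          congr 1
          rw [sum_add_distrib, sum_sub_distrib]
          simp only [sum_const, nsmul_eq_mul]
          ring
      _ ≤ ∑ h ∈ S, wt y h := by
          refine sum_le_sum fun h hh => ?_
          have hh' := mem_filter.1 hh
          have hh1 := mem_Ico.1 hh'.1
          refine le_trans ?_ (s53_wt_ge y h)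
          have h1 : Real.exp (-(s53_Y (4 * T) h)) ≤ Real.exp (-(s53_Y y h)) :=
            Real.exp_le_exp.2 (neg_le_neg (s53_Y_le T y h (by omega) hh1.2))
          refine le_trans ?_ h1
          have h2 : Real.exp (-(s53_Y (4 * T) h)) = Real.exp (-M) * Real.exp (M - s53_Y (4 * T) h) := by
            rw [← Real.exp_add]
            congr 1
            ring
          rw [h2]
          refine mul_le_mul_of_nonneg_left ?_ (Real.exp_pos _).le
          have := Real.add_one_le_exp (M - s53_Y (4 * T) h)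
          linarith
  have hwt0 : ∀ h, 0 ≤ wt y h := fun h => (Real.exp_pos _).le.trans (s53_wt_ge y h)
  have h2 : (1 / (2 * (T : ℝ))) * ∑ h ∈ S, wt y h ≤ ∑ h ∈ S, (1 / (h : ℝ)) * wt y h := by
    rw [mul_sum]
    refine sum_le_sum fun h hh => ?_
    have hh' := mem_filter.1 hh
    have hh1 := mem_Ico.1 hh'.1
    refine mul_le_mul_of_nonneg_right ?_ (hwt0 h)
    have h3 : (0 : ℝ) < h := by
      have : 0 < h := by omega
      exact_mod_cast this
    have h4 : (h : ℝ) ≤ 2 * T := by
      have : h ≤ 2 * T := by omega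
      exact_mod_cast this
    exact one_div_le_one_div_of_le h3 h4
  have h3 : (1 / (2 * (T : ℝ))) * (Real.exp (-M) * (T / 8)) ≤ ∑ h ∈ S, (1 / (h : ℝ)) * wt y h :=
    (mul_le_mul_of_nonneg_left key (by positivity)).trans h2
  refine le_trans ?_ h3
  have e1 : (1 / (2 * (T : ℝ))) * (Real.exp (-M) * (T / 8)) = Real.exp (-M) / 16 := by
    have : (T : ℝ) ≠ 0 := by linarith
    field_simp
    ring
  rw [e1]
  have e2 : Real.exp (-M) = Real.exp (-(C + 18)) / Real.log (4 * T) := by
    rw [hM, hcast, show -(Real.log (Real.log (4 * (T : ℝ))) + C + 18) =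
      -(C + 18) - Real.log (Real.log (4 * T)) by ring, Real.exp_sub, Real.exp_log (by linarith)]
  rw [e2]
  have hlogT : 0 < Real.log T := Real.log_pos (by linarith)
  have h5 : Real.log (4 * T) ≤ 2 * Real.log T := by
    rw [Real.log_mul (by norm_num) (by linarith)]
    have : Real.log 4 ≤ Real.log T := Real.log_le_log (by norm_num) hT4'
    linarith
  rw [div_div, div_div, div_le_div_iff_of_pos_left (Real.exp_pos _) (by positivity) (by positivity)]
  linarith

end Pool.Agent.GM53
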