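import Pool.Agent.GM53.Defs

/-!
# GM53/Cls: assembly of `cls` from `exists_ge` and `block_ge`
-/

set_option autoImplicit false

namespace Pool.Agent.GM53

open Finset Filter

theorem cls_harm (i0 : ℕ) (h0 : 1 ≤ i0) (L : ℕ) (hL : i0 ≤ L) :
    Real.log L - Real.log i0 ≤ ∑ i ∈ Ico i0 L, 1 / (i : ℝ) := by
  induction L, hL using Nat.le_induction with
  | base => simp
  | succ L hL ih =>
    rw [sum_Ico_succ_top hL]
    have hL0 : (0 : ℝ) < L := by exact_mod_cast (lt_of_lt_of_le h0 hL)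
    have h1 : Real.log ((L : ℝ) + 1) - Real.log L ≤ 1 / L := by
      rw [← Real.log_div (by positivity) (by positivity)]
      have h2 : ((L : ℝ) + 1) / L = 1 + 1 / L := by field_simp
      rw [h2]
      have h3 := Real.log_le_sub_one_of_pos (show (0 : ℝ) < 1 + 1 / L by positivity)
      linarith
    push_cast
    linarith

theorem cls_blocks (f : ℕ → ℝ) (i0 L : ℕ) (hL : i0 ≤ L) :
    ∑ h ∈ Ico (2 ^ i0) (2 ^ L), f h = ∑ i ∈ Ico i0 L, ∑ h ∈ Ico (2 ^ i) (2 * 2 ^ i), f h := by
  induction L, hL using Nat.le_induction with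
  | base => simp
  | succ L hL ih =>
    rw [sum_Ico_succ_top hL, ← ih, ← pow_succ']
    exact (sum_Ico_consecutive f (Nat.pow_le_pow_right (by norm_num) hL)
      (Nat.pow_le_pow_right (by norm_num) (Nat.le_succ L))).symm

open Classical in
theorem cls_of
    (hex : ∀ (P : Finset ℕ), (∀ p ∈ P, 3 ≤ p ∧ Odd p) → ∀ (H : Finset ℕ) (v : ℕ → ℝ),
      (∀ h ∈ H, 0 ≤ v h) → ∃ a : ℕ → ℕ,
      ∑ h ∈ H, v h * ∏ p ∈ P, (if Up p h then 1 - 2 / ((p : ℝ) + 1) else 1) ≤
        ∑ h ∈ H.filter (fun h => ∀ p ∈ P, ¬ h ≡ a p [MOD p]), v h)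
    (hblk : ∃ c : ℝ, 0 < c ∧ ∃ T₀ : ℕ, 2 ≤ T₀ ∧ ∀ T y : ℕ, T₀ ≤ T →
      c / Real.log T ≤ ∑ h ∈ (Ico T (2 * T)).filter (fun h => Odd h), (1 / (h : ℝ)) * wt y h) :
    ∃ c : ℝ, 0 < c ∧ ∀ᶠ y : ℕ in atTop, ∃ a : ℕ → ℕ, ∃ H : Finset ℕ, H ⊆ Icc 1 y ∧
    (∀ h ∈ H, ∀ p, p.Prime → p ≤ y → ¬ h ≡ a p [MOD p]) ∧
    c * Real.log (Real.log y) ≤ ∑ h ∈ H, 1 / (h : ℝ) := by
  obtain ⟨c, hc, i0, hi0, hb⟩ := hblk
  have hlog2 : 0 < Real.log 2 := Real.log_pos (by norm_num)
  refine ⟨c / (2 * Real.log 2), by positivity, ?_⟩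
  have hlim : Tendsto (fun y : ℕ => Real.log (Real.log y)) atTop atTop :=
    Real.tendsto_log_atTop.comp (Real.tendsto_log_atTop.comp tendsto_natCast_atTop_atTop)
  filter_upwards [hlim.eventually_ge_atTop (2 * (Real.log 2 + Real.log i0)),
    eventually_ge_atTop (2 ^ i0)] with y hy1 hy2
  have hP : ∀ p ∈ oddPrimes y, 3 ≤ p ∧ Odd p := by
    intro p hp
    obtain ⟨h1, h2⟩ := mem_filter.1 hp
    have h3 := (mem_Icc.1 h1).1
    exact ⟨h3, h2.odd_of_ne_two (by omega)⟩
  obtain ⟨a, ha⟩ := hex (oddPrimes y) hP ((Icc 1 y).filter fun h => Odd h) (fun h => 1 / (h : ℝ))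
    (fun h _ => by positivity)
  refine ⟨Function.update a 2 0,
    ((Icc 1 y).filter fun h => Odd h).filter (fun h => ∀ p ∈ oddPrimes y, ¬ h ≡ a p [MOD p]),
    (filter_subset _ _).trans (filter_subset _ _), ?_, ?_⟩
  · intro h hh p hp hpy hmod
    obtain ⟨h1, h2⟩ := mem_filter.1 hh
    have hodd := (mem_filter.1 h1).2
    by_cases hp2 : p = 2
    · subst hp2
      rw [Function.update_self] at hmod
      have h3 : h % 2 = 0 := by
        have := hmod
        unfold Nat.ModEq at this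
        simpa using this
      rcases hodd with ⟨k, hk⟩
      omega
    · rw [Function.update_of_ne hp2] at hmod
      refine h2 p (mem_filter.2 ⟨mem_Icc.2 ⟨?_, hpy⟩, hp⟩) hmod
      have := hp.two_le
      omega
  · refine le_trans ?_ ha
    -- the sum over the blocks
    set L := Nat.log 2 y with hL
    have hy0 : y ≠ 0 := by
      have : 0 < 2 ^ i0 := by positivity
      omega
    have hiL : i0 ≤ L := by
      rw [hL]
      exact Nat.le_log_of_pow_le (by norm_num) hy2
    have hLy : 2 ^ L ≤ y := Nat.pow_log_le_self 2 hy0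
    have hyL : y < 2 ^ (L + 1) := Nat.lt_pow_succ_log_self (by norm_num) y
    have hi1 : 1 ≤ i0 := by omega
    have hwt0 : ∀ h, 0 ≤ wt y h := by
      intro h
      unfold wt
      refine prod_nonneg fun p hp => ?_
      have h3 := (hP p hp).1
      have h4 : (3 : ℝ) ≤ p := by exact_mod_cast h3
      split_ifs
      · have h5 : 2 / ((p : ℝ) + 1) ≤ 1 := by
          rw [div_le_one (by linarith)]
          linarith
        linarith
      · exact zero_le_one
    have e1 : ∑ i ∈ Ico i0 L, ∑ h ∈ Ico (2 ^ i : ℕ) (2 * 2 ^ i),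
        (if Odd h then (1 / (h : ℝ)) * wt y h else 0) ≤
        ∑ h ∈ (Icc 1 y).filter (fun h => Odd h), (1 / (h : ℝ)) * wt y h := by
      rw [← cls_blocks _ i0 L hiL, ← sum_filter]
      apply sum_le_sum_of_subset_of_nonneg
      · intro h hh
        obtain ⟨h1, h2⟩ := mem_filter.1 hh
        rw [mem_Ico] at h1
        refine mem_filter.2 ⟨mem_Icc.2 ⟨?_, ?_⟩, h2⟩
        · have : 0 < 2 ^ i0 := by positivity
          omega
        · omega
      · intro h _ _
        have := hwt0 h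
        positivity
    have e2 : ∀ i ∈ Ico i0 L, c / Real.log 2 * (1 / (i : ℝ)) ≤ ∑ h ∈ Ico (2 ^ i : ℕ) (2 * 2 ^ i),
        (if Odd h then (1 / (h : ℝ)) * wt y h else 0) := by
      intro i hi
      rw [← sum_filter]
      have hi' := (mem_Ico.1 hi).1
      have h1 := hb (2 ^ i) y (hi'.trans (Nat.lt_two_pow_self).le)
      refine le_trans (le_of_eq ?_) h1
      push_cast
      rw [Real.log_pow]
      have hipos : (0 : ℝ) < i := by exact_mod_cast (by omega : 0 < i)
      field_simp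
    have e3 := sum_le_sum e2
    rw [← mul_sum] at e3
    have e4 := cls_harm i0 hi1 L hiL
    have hLpos : (1 : ℝ) ≤ L := by exact_mod_cast hi1.trans hiL
    have hyR : (1 : ℝ) < y := by
      have h1 : 2 ^ 1 ≤ 2 ^ i0 := Nat.pow_le_pow_right (by norm_num) hi1
      have h2 : 1 < y := by omega
      exact_mod_cast h2
    have hlogy : 0 < Real.log y := Real.log_pos hyR
    have e5 : Real.log (Real.log y) ≤ Real.log 2 + Real.log L := by
      rw [← Real.log_mul (by norm_num) (by linarith)]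
      apply Real.log_le_log hlogy
      have h1 : Real.log y ≤ Real.log ((2 : ℝ) ^ (L + 1)) := by
        apply Real.log_le_log (by linarith)
        exact_mod_cast hyL.le
      rw [Real.log_pow] at h1
      have h2 : Real.log 2 ≤ 1 := by
        have := Real.log_le_sub_one_of_pos (show (0 : ℝ) < 2 by norm_num)
        linarith
      push_cast at h1
      nlinarith
    have hgoal : c / (2 * Real.log 2) * Real.log (Real.log y) ≤
        ∑ h ∈ (Icc 1 y).filter (fun h => Odd h), (1 / (h : ℝ)) * wt y h := by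
      refine le_trans ?_ (e3.trans e1)
      have h1 : Real.log (Real.log y) / 2 ≤ ∑ i ∈ Ico i0 L, 1 / (i : ℝ) := by linarith
      have h2 : 0 ≤ c / Real.log 2 := by positivity
      calc c / (2 * Real.log 2) * Real.log (Real.log y)
          = c / Real.log 2 * (Real.log (Real.log y) / 2) := by field_simp
        _ ≤ c / Real.log 2 * ∑ i ∈ Ico i0 L, 1 / (i : ℝ) := mul_le_mul_of_nonneg_left h1 h2
    refine hgoal.trans (le_of_eq ?_)
    rfl

end Pool.Agent.GM53
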