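import Pool.Agent.GM53.ClsE5
import Pool.Agent.GM53.Mert
import Pool.Agent.GM53.CardUp
import Pool.Agent.GM53.ClsS92
import Pool.Agent.GM53.BlockS53

/-!
# GM53/Cls: residue classes that leave a set with a large sum of reciprocals (STUB)

For every odd prime `p ≤ y` one class `a_p` in the upper half `(p/2, p]` is removed; on average over the
classes the integer `h` survives with probability `wt y h`, and `∑_{h odd} wt y h / h ≥ c log log y`.
-/

set_option autoImplicit false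

namespace Pool.Agent.GM53

open Finset Filter

open Classical in
/-- PROOF. Induction on `P` (for all `v`). Insert `p`: for `a ∈ Ioc (p/2) p` (there are `(p+1)/2` of them, `p` odd) put
`v_a h = if h ≡ a [MOD p] then 0 else v h`. For fixed `h` the mean of `v_a h` over `a` is `v h` if `¬ Up p h` and
`v h * (1 - 2/(p+1))` if `Up p h` (exactly one `a` with `h ≡ a`), so some `a` has
`∑ v_a h * ∏_{P} ≥ ∑ v h * ∏_{insert p P}` (`Finset.exists_le_of_sum_le`); apply the induction hypothesis to `v_a`. -/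
theorem exists_ge (P : Finset ℕ) (hP : ∀ p ∈ P, 3 ≤ p ∧ Odd p) (H : Finset ℕ) (v : ℕ → ℝ)
    (hv : ∀ h ∈ H, 0 ≤ v h) : ∃ a : ℕ → ℕ,
      ∑ h ∈ H, v h * ∏ p ∈ P, (if Up p h then 1 - 2 / ((p : ℝ) + 1) else 1) ≤
        ∑ h ∈ H.filter (fun h => ∀ p ∈ P, ¬ h ≡ a p [MOD p]), v h := by
  exact exists_ge5 P hP H v hv

open Classical in
/-- PROOF. An odd `h` is determined modulo `2 p` by `h % p`; the number of upper classes is `(p+1)/2`; each class
modulo `2 p` has at most `T / (2 p) + 1` members in an interval of length `T`. -/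
theorem card_up (p T : ℕ) (hp : 3 ≤ p) (hodd : Odd p) :
    (((Ico T (2 * T)).filter fun h => Odd h ∧ Up p h).card : ℝ) ≤
      ((T : ℝ) / (2 * p) + 1) * ((p + 1) / 2) := by
  exact card_up_S p T hp hodd

/-- PROOF. For `h < 2 T` and `p ≥ 4 T` we have `¬ Up p h`. For `3 ≤ p`: `1 - 2/(p+1) ≥ exp (-(2/(p+1) + 4/(p+1)^2)) ≥
exp (-(2/p) - 4/p^2)`. So `wt y h ≥ e^(-C₁) exp (-X_h)`, `X_h = 2 ∑_{p < 4T, Up p h} 1/p`. By `card_up` and `sum_inv_le`,
`∑_h X_h ≤ (T/2) (log log T + C₂)`, and `exp (-X) ≥ e^(-M) (1 + M - X)` with `M = log log T + C₂` gives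
`∑_h exp (-X_h) ≥ e^(-M) ((T-1)/2 (1+M) - (T/2) M) ≥ e^(-M) T / 8` for large `T`; finally `1/h ≥ 1/(2T)`. -/
theorem block_ge : ∃ c : ℝ, 0 < c ∧ ∃ T₀ : ℕ, 2 ≤ T₀ ∧ ∀ T y : ℕ, T₀ ≤ T →
    c / Real.log T ≤ ∑ h ∈ (Ico T (2 * T)).filter (fun h => Odd h), (1 / (h : ℝ)) * wt y h :=
  block_ge_S53

/-- PROOF. `exists_ge` with `P = oddPrimes y`, `H` = odd `h` in `Icc 1 y`, `v h = 1/h`, `a 2 = 0` (redefine `a` at `2`);
`block_ge` at `T = 2^i`, `i₀ ≤ i < Nat.log 2 y` (disjoint, inside `Icc 1 y`): the sum is at least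
`∑ c / (i log 2) ≥ c' log (Nat.log 2 y / i₀) ≥ c'' log log y` for large `y`. -/
theorem cls : ∃ c : ℝ, 0 < c ∧ ∀ᶠ y : ℕ in atTop, ∃ a : ℕ → ℕ, ∃ H : Finset ℕ, H ⊆ Icc 1 y ∧
    (∀ h ∈ H, ∀ p, p.Prime → p ≤ y → ¬ h ≡ a p [MOD p]) ∧
    c * Real.log (Real.log y) ≤ ∑ h ∈ H, 1 / (h : ℝ) :=
  cls_of (fun P hP H v hv => exists_ge P hP H v hv) block_ge

end Pool.Agent.GM53
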