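import Pool.Agent.GM53.Defs

/-!
# GM53/ClsE5: proof of `exists_ge`
-/

set_option autoImplicit false

namespace Pool.Agent.GM53

open Finset Filter

open Classical in
/-- The number of classes in the upper half that contain `h`. -/
theorem up_card {p : ℕ} (h3 : 3 ≤ p) (ho : Odd p) (h : ℕ) :
    (((Ioc (p / 2) p).filter fun a => h ≡ a [MOD p]).card : ℕ) = if Up p h then 1 else 0 := by
  have hm : h % p < p := Nat.mod_lt _ (by omega)
  have ho' : p % 2 = 1 := Nat.odd_iff.1 ho
  have hmem : ∀ a, a ∈ (Ioc (p / 2) p).filter (fun a => h ≡ a [MOD p]) ↔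
      (p / 2 < a ∧ a < p ∧ h % p = a) ∨ (a = p ∧ h % p = 0) := by
    intro a
    rw [Finset.mem_filter, Finset.mem_Ioc]
    unfold Nat.ModEq
    constructor
    · rintro ⟨⟨h1, h2⟩, h4⟩
      rcases Nat.lt_or_ge a p with h5 | h5
      · left
        rw [Nat.mod_eq_of_lt h5] at h4
        exact ⟨h1, h5, h4⟩
      · right
        have h6 : a = p := by omega
        rw [h6, Nat.mod_self] at h4
        exact ⟨h6, h4⟩
    · rintro (⟨h1, h2, h4⟩ | ⟨h1, h4⟩)
      · refine ⟨⟨h1, h2.le⟩, ?_⟩
        rw [Nat.mod_eq_of_lt h2]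
        exact h4
      · rw [h1, Nat.mod_self]
        exact ⟨⟨by omega, le_rfl⟩, h4⟩
  split_ifs with hU
  · rw [Finset.card_eq_one]
    rcases hU with hU | hU
    · refine ⟨p, ?_⟩
      ext a
      rw [hmem, Finset.mem_singleton]
      constructor
      · rintro (⟨h1, h2, h4⟩ | ⟨h1, -⟩)
        · omega
        · exact h1
      · intro h1
        exact Or.inr ⟨h1, hU⟩
    · refine ⟨h % p, ?_⟩
      ext a
      rw [hmem, Finset.mem_singleton]
      constructor
      · rintro (⟨-, -, h4⟩ | ⟨h1, h4⟩)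
        · exact h4.symm
        · omega
      · intro h1
        left
        exact ⟨by omega, by omega, h1.symm⟩
  · rw [Finset.card_eq_zero, Finset.eq_empty_iff_forall_notMem]
    intro a ha
    rw [hmem] at ha
    unfold Up at hU
    push Not at hU
    rcases ha with ⟨h1, h2, h4⟩ | ⟨h1, h4⟩
    · omega
    · exact hU.1 h4

open Classical in
theorem exists_ge5 (P : Finset ℕ) (hP : ∀ p ∈ P, 3 ≤ p ∧ Odd p) (H : Finset ℕ) (v : ℕ → ℝ)
    (hv : ∀ h ∈ H, 0 ≤ v h) : ∃ a : ℕ → ℕ,
      ∑ h ∈ H, v h * ∏ p ∈ P, (if Up p h then 1 - 2 / ((p : ℝ) + 1) else 1) ≤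
        ∑ h ∈ H.filter (fun h => ∀ p ∈ P, ¬ h ≡ a p [MOD p]), v h := by
  induction P using Finset.induction_on generalizing v with
  | empty =>
    refine ⟨fun _ => 0, ?_⟩
    simp
  | insert p P hpP ih =>
    obtain ⟨h3, ho⟩ := hP p (Finset.mem_insert_self _ _)
    have ho' : p % 2 = 1 := Nat.odd_iff.1 ho
    set W : ℕ → ℝ := fun h => ∏ p ∈ P, (if Up p h then 1 - 2 / ((p : ℝ) + 1) else 1) with hW
    set va : ℕ → ℕ → ℝ := fun a h => if h ≡ a [MOD p] then 0 else v h with hva
    set K : ℕ := (p + 1) / 2 with hK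
    have hcardK : (Ioc (p / 2) p).card = K := by
      rw [Nat.card_Ioc]
      omega
    have hKp : (K : ℝ) = ((p : ℝ) + 1) / 2 := by
      have h4 : 2 * K = p + 1 := by omega
      have h5 : 2 * (K : ℝ) = p + 1 := by exact_mod_cast h4
      linarith
    have hKpos : (0 : ℝ) < K := by
      rw [hKp]
      positivity
    have hmean : ∑ a ∈ Ioc (p / 2) p, ∑ h ∈ H, va a h * W h =
        ∑ a ∈ Ioc (p / 2) p,
          ∑ h ∈ H, v h * ((if Up p h then 1 - 2 / ((p : ℝ) + 1) else 1) * W h) := by
      rw [Finset.sum_comm, Finset.sum_const, hcardK, nsmul_eq_mul, Finset.mul_sum]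
      refine Finset.sum_congr rfl fun h _ => ?_
      have h4 : ∑ a ∈ Ioc (p / 2) p, va a h * W h =
          (∑ a ∈ Ioc (p / 2) p, (if h ≡ a [MOD p] then (0 : ℝ) else 1)) * (v h * W h) := by
        rw [Finset.sum_mul]
        refine Finset.sum_congr rfl fun a _ => ?_
        rw [hva]
        dsimp only
        split_ifs <;> ring
      have h5 : ∑ a ∈ Ioc (p / 2) p, (if h ≡ a [MOD p] then (0 : ℝ) else 1) =
          K - (if Up p h then 1 else 0) := by
        have h6 : ∑ a ∈ Ioc (p / 2) p, (if h ≡ a [MOD p] then (0 : ℝ) else 1) =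
            ∑ a ∈ Ioc (p / 2) p, ((1 : ℝ) - (if h ≡ a [MOD p] then (1 : ℝ) else 0)) := by
          refine Finset.sum_congr rfl fun a _ => ?_
          split_ifs <;> ring
        rw [h6, Finset.sum_sub_distrib, Finset.sum_const, hcardK, nsmul_eq_mul, mul_one,
          Finset.sum_boole]
        have h7 := up_card h3 ho h
        congr 1
        rw [show (((Ioc (p / 2) p).filter fun a => h ≡ a [MOD p]).card : ℝ) =
          ((if Up p h then 1 else 0 : ℕ) : ℝ) by rw [← h7]]
        split_ifs <;> simp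
      rw [h4, h5]
      have hp1 : (p : ℝ) + 1 ≠ 0 := by positivity
      split_ifs
      · rw [hKp]
        field_simp
      · rw [hKp]
        ring
    obtain ⟨a0, -, ha0⟩ := Finset.exists_le_of_sum_le (s := Ioc (p / 2) p)
      (by rw [← Finset.card_pos, hcardK]; omega) hmean.ge
    obtain ⟨a', ha'⟩ := ih (fun q hq => hP q (Finset.mem_insert_of_mem hq)) (va a0) (by
      intro h hh
      rw [hva]
      dsimp only
      split_ifs
      · exact le_rfl
      · exact hv h hh)
    refine ⟨fun q => if q = p then a0 else a' q, ?_⟩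
    have h8 : ∑ h ∈ H, v h * ∏ q ∈ insert p P, (if Up q h then 1 - 2 / ((q : ℝ) + 1) else 1) =
        ∑ h ∈ H, v h * ((if Up p h then 1 - 2 / ((p : ℝ) + 1) else 1) * W h) := by
      refine Finset.sum_congr rfl fun h _ => ?_
      rw [Finset.prod_insert hpP]
    rw [h8]
    refine ha0.trans (ha'.trans ?_)
    have h9 : ∑ h ∈ H.filter (fun h => ∀ q ∈ P, ¬ h ≡ a' q [MOD q]), va a0 h =
        ∑ h ∈ H.filter (fun h => ∀ q ∈ insert p P,
          ¬ h ≡ (if q = p then a0 else a' q) [MOD q]), v h := by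
      rw [Finset.sum_filter, Finset.sum_filter]
      refine Finset.sum_congr rfl fun h _ => ?_
      have h10 : (∀ q ∈ insert p P, ¬ h ≡ (if q = p then a0 else a' q) [MOD q]) ↔
          (¬ h ≡ a0 [MOD p] ∧ ∀ q ∈ P, ¬ h ≡ a' q [MOD q]) := by
        constructor
        · intro h11
          refine ⟨?_, fun q hq => ?_⟩
          · have := h11 p (Finset.mem_insert_self _ _)
            rwa [if_pos rfl] at this
          · have := h11 q (Finset.mem_insert_of_mem hq)
            rwa [if_neg (fun (he : q = p) => hpP (he ▸ hq))] at this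
        · rintro ⟨h11, h12⟩ q hq
          rcases Finset.mem_insert.1 hq with rfl | hq'
          · rwa [if_pos rfl]
          · rw [if_neg (fun (he : q = p) => hpP (he ▸ hq'))]
            exact h12 q hq'
      rw [hva]
      dsimp only
      by_cases c1 : ∀ q ∈ P, ¬ h ≡ a' q [MOD q]
      · by_cases c2 : h ≡ a0 [MOD p]
        · rw [if_pos c1, if_pos c2, if_neg (fun hh => (h10.1 hh).1 c2)]
        · rw [if_pos c1, if_neg c2, if_pos (h10.2 ⟨c2, c1⟩)]
      · rw [if_neg c1, if_neg (fun hh => c1 (h10.1 hh).2)]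
    exact h9.le

end Pool.Agent.GM53
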