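import Pool.Agent.GM53.Defs

/-!
# GM53/Crt: the Chinese remainder theorem
-/

set_option autoImplicit false

namespace Pool.Agent.GM53

open Finset

theorem crt (y Z : ℕ) (a : ℕ → ℕ) : ∃ n₀ : ℕ, ∀ n, n ≡ n₀ [MOD primorial Z] → ∀ h, 1 ≤ h → h ≤ y → h ≤ n →
    (∀ p, p.Prime → p ≤ y → ¬ h ≡ a p [MOD p]) → (n - h).Coprime (primorial Z) := by
  obtain ⟨n₀, hn₀⟩ : ∃ n₀ : ℕ, ∀ p ∈ (range (Z + 1)).filter Nat.Prime,
      n₀ ≡ (if p ≤ y then a p else 0) [MOD p] := by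
    have hco : Set.Pairwise (↑((range (Z + 1)).filter Nat.Prime) : Set ℕ)
        (Function.onFun Nat.Coprime (fun p : ℕ => p)) := by
      intro p hp q hq hpq
      have hp' := (mem_filter.1 (mem_coe.1 hp)).2
      have hq' := (mem_filter.1 (mem_coe.1 hq)).2
      exact (Nat.coprime_primes hp' hq').2 hpq
    let w := Nat.chineseRemainderOfFinset (fun p => if p ≤ y then a p else 0) (fun p : ℕ => p)
      ((range (Z + 1)).filter Nat.Prime)
      (fun p hp => (mem_filter.1 hp).2.ne_zero) hco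
    exact ⟨w.1, w.2⟩
  refine ⟨n₀, fun n hn h h1 hy hhn hav => ?_⟩
  refine Nat.Coprime.symm (Nat.coprime_of_dvd fun p hp hpZ hpn => ?_)
  have hpZ' : p ≤ Z := (Nat.Prime.dvd_primorial_iff hp).1 hpZ
  have hm : p ∈ (range (Z + 1)).filter Nat.Prime := mem_filter.2 ⟨by simpa using by omega, hp⟩
  have e1 : n ≡ n₀ [MOD p] := hn.of_dvd hpZ
  have e2 : h ≡ n [MOD p] := (Nat.modEq_iff_dvd' hhn).2 hpn
  have e3 : h ≡ (if p ≤ y then a p else 0) [MOD p] := e2.trans (e1.trans (hn₀ p hm))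
  by_cases hpy : p ≤ y
  · rw [if_pos hpy] at e3
    exact hav p hp hpy e3
  · rw [if_neg hpy] at e3
    have : p ∣ h := (Nat.modEq_zero_iff_dvd).1 e3
    have := Nat.le_of_dvd (by omega) this
    omega

end Pool.Agent.GM53
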