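import Mathlib

/-!
# The Cramer-Granville random model for the sum `f(n) = ∑_{p < n} 1/(n - p)` (definitions)
-/

set_option autoImplicit false

namespace Pool.Agent.GM53

open MeasureTheory Filter Topology Finset

/-- Mertens' product `∏_{p ≤ y} (1 - 1/p)⁻¹`. -/
noncomputable def mert (y : ℕ) : ℝ :=
  ∏ p ∈ (range (y + 1)).filter Nat.Prime, (1 - 1 / (p : ℝ))⁻¹

/-- The probability with which `m` belongs to the random set: integers with a prime factor at most
`z m` are excluded, the other ones get the probability `1 / log m`, corrected by Mertens' product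
(and cut at `1`). -/
noncomputable def prob (z : ℕ → ℕ) (m : ℕ) : ℝ :=
  if m.Coprime (primorial (z m)) then min 1 (mert (z m) / Real.log m) else 0

/-- The sum `∑_{a ∈ A, a < n} 1 / (n - a)`. -/
noncomputable def recip (A : Set ℕ) (n : ℕ) : ℝ :=
  ∑ m ∈ range n, A.indicator (fun m => 1 / ((n : ℝ) - m)) m

/-- The coin for the integer `m`: `true` with probability `prob z m`. -/
noncomputable def coin (z : ℕ → ℕ) (m : ℕ) : Measure Bool :=
  ENNReal.ofReal (prob z m) • Measure.dirac true +
    ENNReal.ofReal (1 - prob z m) • Measure.dirac false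

/-- `h` lies in an upper class modulo `p` (representatives in `(p/2, p]`). -/
def Up (p h : ℕ) : Prop := h % p = 0 ∨ p < 2 * (h % p)

/-- the odd primes `≤ y` -/
def oddPrimes (y : ℕ) : Finset ℕ := (Icc 3 y).filter Nat.Prime

/-- the weight `∏ (1 - 2/(p+1))` over the odd primes `p ≤ y` for which `h` is in an upper class -/
noncomputable def wt (y h : ℕ) : ℝ := by
  classical
  exact ∏ p ∈ oddPrimes y, if Up p h then 1 - 2 / ((p : ℝ) + 1) else 1

/-- number of elements of `A` in `[n - 2^(i+1), n - 2^i)` -/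
noncomputable def cnt (A : Set ℕ) (n i : ℕ) : ℝ :=
  ∑ m ∈ Ico (n - 2 ^ (i + 1)) (n - 2 ^ i), A.indicator (fun _ => (1 : ℝ)) m

lemma primorial_pos' (n : ℕ) : 0 < primorial n := primorial_pos n

lemma mert_pos (y : ℕ) : 0 < mert y := by
  unfold mert
  refine prod_pos fun p hp => ?_
  have h2 : 2 ≤ p := (mem_filter.1 hp).2.two_le
  have h3 : (2 : ℝ) ≤ p := by exact_mod_cast h2
  have h4 : 1 / (p : ℝ) ≤ 1 / 2 := one_div_le_one_div_of_le (by norm_num) h3
  exact inv_pos.2 (by linarith)

lemma prob_nonneg (z : ℕ → ℕ) (m : ℕ) : 0 ≤ prob z m := by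
  unfold prob
  split_ifs
  · exact le_min zero_le_one (div_nonneg (mert_pos _).le (Real.log_natCast_nonneg m))
  · exact le_rfl

lemma prob_le_one (z : ℕ → ℕ) (m : ℕ) : prob z m ≤ 1 := by
  unfold prob
  split_ifs
  · exact min_le_left _ _
  · exact zero_le_one

lemma recip_nonneg (A : Set ℕ) (n : ℕ) : 0 ≤ recip A n := by
  unfold recip
  refine sum_nonneg fun m hm => ?_
  rw [mem_range] at hm
  have hm' : (m : ℝ) < n := by exact_mod_cast hm
  by_cases h : m ∈ A
  · rw [Set.indicator_of_mem h]
    exact one_div_nonneg.2 (by linarith)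
  · rw [Set.indicator_of_notMem h]

end Pool.Agent.GM53
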