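import Pool.Agent.GM53.Sieve
import Pool.Agent.GM53.Mert

/-!
# GM53/LargeS: the sum over the large scales
-/

set_option autoImplicit false

namespace Pool.Agent.GM53

open Filter Topology Finset

/-- The sum over the scales `i ≥ Nat.log 2 ⌊log n⌋₊`. -/
theorem large_scales_S (C : ℝ) (hC : 0 < C) : ∃ C' : ℝ, 0 < C' ∧ ∀ᶠ n : ℕ in atTop, ∀ A : Set ℕ,
    (∀ i : ℕ, Nat.log 2 ⌊Real.log n⌋₊ ≤ i → i + 1 < Nat.log 2 n →
      cnt A n i ≤ 2 * (C * 2 ^ i / Real.log n) + 5 * Real.log n) →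
    ∑ i ∈ Ico (Nat.log 2 ⌊Real.log n⌋₊) (Nat.log 2 n - 1), cnt A n i / 2 ^ i ≤ C' := by
  have hl2 : 0 < Real.log 2 := Real.log_pos (by norm_num)
  refine ⟨2 * C / Real.log 2 + 40, by positivity, ?_⟩
  have hlog : Tendsto (fun n : ℕ => Real.log n) atTop atTop :=
    Real.tendsto_log_atTop.comp tendsto_natCast_atTop_atTop
  filter_upwards [hlog.eventually_ge_atTop 2, eventually_gt_atTop 0] with n hn hn0 A hA
  have hlogpos : 0 < Real.log n := by linarith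
  obtain ⟨L, hL⟩ : ∃ L, L = Nat.log 2 ⌊Real.log n⌋₊ := ⟨_, rfl⟩
  rw [← hL] at hA ⊢
  have h1 : ((⌊Real.log n⌋₊ : ℕ) : ℝ) < 2 ^ (L + 1) := by
    have h := Nat.lt_pow_succ_log_self (b := 2) (by norm_num) ⌊Real.log n⌋₊
    rw [← hL] at h
    exact_mod_cast h
  have h2 : Real.log n < ⌊Real.log n⌋₊ + 1 := Nat.lt_floor_add_one _
  have h3 : Real.log n ≤ 4 * 2 ^ L := by
    rw [pow_succ] at h1
    linarith
  have hterm : ∀ i ∈ Ico L (Nat.log 2 n - 1),
      cnt A n i / 2 ^ i ≤ 2 * C / Real.log n + 5 * Real.log n * (1 / 2) ^ i := by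
    intro i hi
    rw [mem_Ico] at hi
    have h := hA i hi.1 (by omega)
    have hp : (0 : ℝ) < 2 ^ i := by positivity
    rw [div_le_iff₀ hp]
    refine h.trans (le_of_eq ?_)
    have hq : ((1 : ℝ) / 2) ^ i * 2 ^ i = 1 := by
      rw [← mul_pow]
      norm_num
    have e : (2 * C / Real.log n + 5 * Real.log n * (1 / 2) ^ i) * 2 ^ i =
        2 * C / Real.log n * 2 ^ i + 5 * Real.log n * ((1 / 2) ^ i * 2 ^ i) := by ring
    rw [e, hq]
    ring
  refine (sum_le_sum hterm).trans ?_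
  rw [sum_add_distrib, sum_const, Nat.card_Ico, nsmul_eq_mul, ← mul_sum]
  have hA1 : ((Nat.log 2 n - 1 - L : ℕ) : ℝ) * (2 * C / Real.log n) ≤ 2 * C / Real.log 2 := by
    have h4 : ((Nat.log 2 n - 1 - L : ℕ) : ℝ) ≤ Nat.log 2 n := by
      exact_mod_cast (by omega : Nat.log 2 n - 1 - L ≤ Nat.log 2 n)
    have h5 : (Nat.log 2 n : ℝ) * Real.log 2 ≤ Real.log n := by
      have h6 : ((2 : ℝ)) ^ (Nat.log 2 n) ≤ n := by
        exact_mod_cast Nat.pow_log_le_self 2 hn0.ne'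
      have h7 := Real.log_le_log (by positivity) h6
      rwa [Real.log_pow] at h7
    have h8 : ((Nat.log 2 n - 1 - L : ℕ) : ℝ) * Real.log 2 ≤ Real.log n :=
      (mul_le_mul_of_nonneg_right h4 hl2.le).trans h5
    rw [mul_div_assoc', div_le_div_iff₀ hlogpos hl2]
    nlinarith [mul_le_mul_of_nonneg_left h8 (by positivity : (0 : ℝ) ≤ 2 * C)]
  have hB1 : 5 * Real.log n * ∑ i ∈ Ico L (Nat.log 2 n - 1), (1 / 2 : ℝ) ^ i ≤ 40 := by
    have h4 : ∑ i ∈ Ico L (Nat.log 2 n - 1), (1 / 2 : ℝ) ^ i ≤ (1 / 2) ^ L / (1 - 1 / 2) :=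
      geom_sum_Ico_le_of_lt_one (by norm_num) (by norm_num)
    have hp : (0 : ℝ) < 2 ^ L := by positivity
    have h5 : ((1 : ℝ) / 2) ^ L * 2 ^ L = 1 := by
      rw [← mul_pow]
      norm_num
    have hq : (0 : ℝ) < (1 / 2) ^ L := by positivity
    have h6 : Real.log n * (1 / 2) ^ L ≤ 4 := by
      have h7 := mul_le_mul_of_nonneg_right h3 hq.le
      have h8 : 4 * (2 : ℝ) ^ L * (1 / 2) ^ L = 4 := by
        rw [mul_assoc, mul_comm ((2 : ℝ) ^ L), h5, mul_one]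
      linarith
    have h9 := mul_le_mul_of_nonneg_left h4 (by positivity : 0 ≤ 5 * Real.log n)
    have h10 : 5 * Real.log n * ((1 / 2) ^ L / (1 - 1 / 2)) = 10 * (Real.log n * (1 / 2) ^ L) := by
      ring
    linarith
  exact add_le_add hA1 hB1

end Pool.Agent.GM53
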