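import Pool.Agent.GM53.Defs

/-!
# GM53/LowNum: the numerical estimates of the lower bound

`X = 2^j`, `Z = ⌊log (2X) / 2⌋`, `y = ⌊√(log X)⌋`, `B = primorial Z * (y + 1)`, `I = X / (2B)`.
-/

set_option autoImplicit false

namespace Pool.Agent.GM53

open Filter Topology Finset

noncomputable def XX (j : ℕ) : ℕ := 2 ^ j
noncomputable def ZZ (j : ℕ) : ℕ := ⌊Real.log (2 * (XX j : ℝ)) / 2⌋₊
noncomputable def YY (j : ℕ) : ℕ := ⌊Real.sqrt (Real.log (XX j))⌋₊
noncomputable def BB (j : ℕ) : ℕ := primorial (ZZ j) * (YY j + 1)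
noncomputable def II (j : ℕ) : ℕ := XX j / (2 * BB j)

theorem log_XX (j : ℕ) : Real.log (XX j) = j * Real.log 2 := by
  rw [XX]
  push_cast
  rw [Real.log_pow]

theorem XX_exp (j : ℕ) : (XX j : ℝ) = Real.exp (j * Real.log 2) := by
  rw [← log_XX, Real.exp_log]
  rw [XX]
  positivity

theorem log_two_XX (j : ℕ) : Real.log (2 * (XX j : ℝ)) = (j + 1) * Real.log 2 := by
  rw [Real.log_mul (by norm_num) (by rw [XX]; positivity), log_XX]
  ring

theorem ev_sqrt (C : ℝ) : ∀ᶠ j : ℕ in atTop, C ≤ √(j : ℝ) :=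
  (Real.tendsto_sqrt_atTop.comp tendsto_natCast_atTop_atTop).eventually_ge_atTop _

theorem ev_log : ∀ᶠ j : ℕ in atTop, Real.log (j : ℝ) ≤ 1 / 100 * √(j : ℝ) := by
  have h1 : ∀ᶠ t : ℝ in atTop, ‖Real.log t‖ ≤ 1 / 200 * ‖t‖ :=
    Real.isLittleO_log_id_atTop.bound (by norm_num)
  have h2 := (Real.tendsto_sqrt_atTop.comp
    (tendsto_natCast_atTop_atTop (R := ℝ))).eventually h1
  filter_upwards [h2, ev_sqrt 1] with j hj hj1
  have h3 : ‖Real.log (√(j : ℝ))‖ ≤ 1 / 200 * ‖√(j : ℝ)‖ := hj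
  rw [Real.norm_of_nonneg (Real.sqrt_nonneg _)] at h3
  have h4 := (le_abs_self (Real.log (√(j : ℝ)))).trans h3
  rw [Real.log_sqrt (Nat.cast_nonneg _)] at h4
  linarith

theorem YY_le (j : ℕ) : (YY j : ℝ) ≤ √(j : ℝ) := by
  rw [YY, log_XX]
  refine (Nat.floor_le (Real.sqrt_nonneg _)).trans (Real.sqrt_le_sqrt ?_)
  have h1 : Real.log 2 ≤ 1 := by linarith [Real.log_two_lt_d9]
  have h2 : (0 : ℝ) ≤ j := Nat.cast_nonneg _
  nlinarith

theorem BB_le : ∀ᶠ j : ℕ in atTop, (BB j : ℝ) ≤ Real.exp (52 / 100 * j) := by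
  filter_upwards [ev_log, ev_sqrt 100] with j hj hs
  have l1 := Real.log_two_lt_d9
  have l2 := Real.log_two_gt_d9
  have hj0 : (0 : ℝ) ≤ j := Nat.cast_nonneg _
  set s : ℝ := √(j : ℝ) with hsd
  have hss : s * s = j := Real.mul_self_sqrt hj0
  have hjp : (0 : ℝ) < j := by nlinarith
  have hZ : (ZZ j : ℝ) ≤ (j + 1) * Real.log 2 / 2 := by
    rw [ZZ, log_two_XX]
    exact Nat.floor_le (by positivity)
  have h1 : (primorial (ZZ j) : ℝ) ≤ Real.exp ((j + 1) * (481 / 1000)) := by
    have h2 : (primorial (ZZ j) : ℝ) ≤ 4 ^ (ZZ j) := by exact_mod_cast primorial_le_four_pow (ZZ j)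
    refine h2.trans ?_
    have h3 : (4 : ℝ) ^ (ZZ j) = Real.exp (ZZ j * (2 * Real.log 2)) := by
      rw [show (2 : ℝ) * Real.log 2 = Real.log 4 by
        rw [show (4 : ℝ) = 2 ^ 2 by norm_num, Real.log_pow]; norm_num]
      rw [mul_comm, Real.exp_mul, Real.exp_log (by norm_num), Real.rpow_natCast]
    rw [h3, Real.exp_le_exp]
    have h4 : (ZZ j : ℝ) * (2 * Real.log 2) ≤ (j + 1) * Real.log 2 / 2 * (2 * Real.log 2) :=
      mul_le_mul_of_nonneg_right hZ (by positivity)
    have h5 : Real.log 2 * Real.log 2 ≤ 481 / 1000 := by nlinarith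
    have h6 : ((j : ℝ) + 1) * (Real.log 2 * Real.log 2) ≤ (j + 1) * (481 / 1000) :=
      mul_le_mul_of_nonneg_left h5 (by positivity)
    linarith
  have h2 : ((YY j : ℝ) + 1) ≤ Real.exp (1 / 100 * s) := by
    have h3 := YY_le j
    have h4 : ((YY j : ℝ) + 1) ≤ j := by nlinarith
    refine h4.trans ?_
    rw [← Real.log_le_iff_le_exp hjp]
    exact hj
  have h3 : (BB j : ℝ) = (primorial (ZZ j) : ℝ) * ((YY j : ℝ) + 1) := by
    rw [BB]; push_cast; ring
  rw [h3]
  calc (primorial (ZZ j) : ℝ) * ((YY j : ℝ) + 1)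
      ≤ Real.exp ((j + 1) * (481 / 1000)) * Real.exp (1 / 100 * s) :=
        mul_le_mul h1 h2 (by positivity) (Real.exp_nonneg _)
    _ = Real.exp ((j + 1) * (481 / 1000) + 1 / 100 * s) := (Real.exp_add _ _).symm
    _ ≤ _ := by
        rw [Real.exp_le_exp]
        nlinarith

theorem BB_small : ∀ᶠ j : ℕ in atTop, 6 * BB j ≤ XX j := by
  filter_upwards [BB_le, ev_sqrt 100] with j hj hs
  have l2 := Real.log_two_gt_d9
  have hj0 : (0 : ℝ) ≤ j := Nat.cast_nonneg _
  have hss : √(j : ℝ) * √(j : ℝ) = j := Real.mul_self_sqrt hj0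
  have hj1 : (10000 : ℝ) ≤ j := by nlinarith
  have h1 : (6 : ℝ) * BB j ≤ XX j := by
    rw [XX_exp]
    have h2 : Real.exp (j * Real.log 2) =
        Real.exp (52 / 100 * j) * Real.exp (j * (Real.log 2 - 52 / 100)) := by
      rw [← Real.exp_add]
      congr 1
      ring
    have h3 : (6 : ℝ) ≤ Real.exp (j * (Real.log 2 - 52 / 100)) := by
      have h4 := Real.add_one_le_exp ((j : ℝ) * (Real.log 2 - 52 / 100))
      nlinarith
    rw [h2]
    calc (6 : ℝ) * BB j ≤ 6 * Real.exp (52 / 100 * j) := by linarith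
      _ ≤ Real.exp (j * (Real.log 2 - 52 / 100)) * Real.exp (52 / 100 * j) :=
        mul_le_mul_of_nonneg_right h3 (Real.exp_nonneg _)
      _ = _ := mul_comm _ _
  exact_mod_cast h1

theorem BB_pos (j : ℕ) : 0 < BB j := by
  rw [BB]
  exact Nat.mul_pos (primorial_pos _) (Nat.succ_pos _)

theorem II_ge : ∀ᶠ j : ℕ in atTop, Real.exp (17 / 100 * j) / 4 ≤ (II j : ℝ) := by
  filter_upwards [BB_le, BB_small] with j hj hs
  have l2 := Real.log_two_gt_d9
  have hj0 : (0 : ℝ) ≤ j := Nat.cast_nonneg _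
  have hB := BB_pos j
  have h1 : 1 ≤ II j := by
    rw [II, Nat.le_div_iff_mul_le (by omega)]
    omega
  have h2 : XX j < 2 * BB j * (II j + 1) := by
    rw [II]
    exact Nat.lt_mul_div_succ _ (by omega)
  have h3 : (XX j : ℝ) < 2 * BB j * (II j + 1) := by exact_mod_cast h2
  have h4 : (1 : ℝ) ≤ II j := by exact_mod_cast h1
  have h5 : (XX j : ℝ) ≤ 4 * Real.exp (52 / 100 * j) * II j := by
    have h6 : 2 * (BB j : ℝ) * (II j + 1) ≤ 2 * (BB j : ℝ) * (2 * II j) :=
      mul_le_mul_of_nonneg_left (by linarith) (by positivity)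
    have h7 : (BB j : ℝ) * II j ≤ Real.exp (52 / 100 * j) * II j :=
      mul_le_mul_of_nonneg_right hj (by linarith)
    linarith
  rw [XX_exp] at h5
  have h6 : Real.exp (17 / 100 * j) * Real.exp (52 / 100 * j) ≤ Real.exp (j * Real.log 2) := by
    rw [← Real.exp_add, Real.exp_le_exp]
    nlinarith
  have h7 : Real.exp (17 / 100 * j) * Real.exp (52 / 100 * j) ≤
      (4 * II j) * Real.exp (52 / 100 * j) := by linarith
  have h8 := le_of_mul_le_mul_right h7 (Real.exp_pos _)
  linarith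

theorem fail_small : ∀ᶠ j : ℕ in atTop,
    (1 - (1 / Real.log (2 * (XX j : ℝ))) ^ YY j) ^ II j ≤ (1 / 2 : ℝ) ^ j := by
  filter_upwards [II_ge, ev_log, ev_sqrt 1000] with j hI hl hs
  have l1 := Real.log_two_lt_d9
  have l2 := Real.log_two_gt_d9
  have hj0 : (0 : ℝ) ≤ j := Nat.cast_nonneg _
  set s : ℝ := √(j : ℝ) with hsd
  have hss : s * s = j := Real.mul_self_sqrt hj0
  have hj1 : (1000000 : ℝ) ≤ j := by nlinarith
  rw [log_two_XX]
  set g : ℝ := (j + 1) * Real.log 2 with hg
  have hg1 : 1 ≤ g := by rw [hg]; nlinarith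
  have hgj : g ≤ (j : ℝ) ^ 2 := by rw [hg]; nlinarith
  have hq : (1 / g) ^ YY j = Real.exp (-(YY j * Real.log g)) := by
    rw [one_div, ← Real.exp_log (show 0 < g by linarith), ← Real.exp_neg, ← Real.exp_nat_mul]
    rw [Real.log_exp]
    congr 1
    ring
  have hlg : Real.log g ≤ 2 / 100 * s := by
    have h1 : Real.log g ≤ Real.log ((j : ℝ) ^ 2) := Real.log_le_log (by linarith) hgj
    rw [Real.log_pow] at h1
    push_cast at h1
    linarith
  have hlg0 : 0 ≤ Real.log g := Real.log_nonneg hg1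
  have hYl : (YY j : ℝ) * Real.log g ≤ 2 / 100 * j := by
    calc (YY j : ℝ) * Real.log g ≤ s * (2 / 100 * s) :=
          mul_le_mul (YY_le j) hlg hlg0 (by linarith)
      _ = _ := by rw [← hss]; ring
  have hq1 : Real.exp (-(2 / 100 * j)) ≤ (1 / g) ^ YY j := by
    rw [hq, Real.exp_le_exp]
    linarith
  have hq2 : (1 / g) ^ YY j ≤ 1 := by
    rw [hq, Real.exp_le_one_iff]
    have : 0 ≤ (YY j : ℝ) * Real.log g := by positivity
    linarith
  set q : ℝ := (1 / g) ^ YY j with hqd
  have h1 : (1 - q) ^ II j ≤ Real.exp (-(II j * q)) := by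
    have h2 : 1 - q ≤ Real.exp (-q) := by
      have := Real.add_one_le_exp (-q)
      linarith
    calc (1 - q) ^ II j ≤ (Real.exp (-q)) ^ II j := pow_le_pow_left₀ (by linarith) h2 _
      _ = Real.exp (-(II j * q)) := by
        rw [← Real.exp_nat_mul]
        congr 1
        ring
  refine h1.trans ?_
  have h2 : (1 / 2 : ℝ) ^ j = Real.exp (-(j * Real.log 2)) := by
    rw [one_div, ← Real.exp_log (show (0 : ℝ) < 2 by norm_num), ← Real.exp_neg, ← Real.exp_nat_mul,
      Real.log_exp]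
    congr 1
    ring
  rw [h2, Real.exp_le_exp]
  have h3 : Real.exp (15 / 100 * j) / 4 ≤ II j * q := by
    have h4 : Real.exp (15 / 100 * j) =
        Real.exp (17 / 100 * j) * Real.exp (-(2 / 100 * (j : ℝ))) := by
      rw [← Real.exp_add]
      congr 1
      ring
    calc Real.exp (15 / 100 * j) / 4 =
          Real.exp (17 / 100 * j) / 4 * Real.exp (-(2 / 100 * j)) := by
          rw [h4]
          ring
      _ ≤ II j * q := mul_le_mul hI hq1 (Real.exp_nonneg _) (Nat.cast_nonneg _)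
  have h4 : (j : ℝ) ≤ Real.exp (15 / 100 * j) / 4 := by
    have h5 : Real.exp (15 / 100 * j) = Real.exp (75 / 1000 * j) * Real.exp (75 / 1000 * j) := by
      rw [← Real.exp_add]
      congr 1
      ring
    have h6 : 75 / 1000 * (j : ℝ) ≤ Real.exp (75 / 1000 * j) := by
      have := Real.add_one_le_exp (75 / 1000 * (j : ℝ))
      linarith
    have h7 : 75 / 1000 * (j : ℝ) * (75 / 1000 * (j : ℝ)) ≤
        Real.exp (75 / 1000 * j) * Real.exp (75 / 1000 * j) :=
      mul_le_mul h6 h6 (by positivity) (Real.exp_nonneg _)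
    rw [h5]
    nlinarith
  have h5 : (j : ℝ) * Real.log 2 ≤ j := by nlinarith
  linarith

/-- The logarithm is at most `log T` on `[-T, T]`. -/
theorem log_le_of_abs {t T : ℝ} (hT : 1 ≤ T) (h : |t| ≤ T) : Real.log t ≤ Real.log T := by
  rcases eq_or_ne t 0 with h0 | h0
  · rw [h0, Real.log_zero]
    exact Real.log_nonneg hT
  · rw [← Real.log_abs]
    exact Real.log_le_log (abs_pos.2 h0) h

theorem loglog_y : ∀ᶠ j : ℕ in atTop, ∀ n : ℕ, n ≤ 2 * XX j →
    (1 / 2) * Real.log (Real.log (Real.log n)) ≤ Real.log (Real.log (YY j)) := by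
  have hT : Tendsto (fun j : ℕ => Real.log (((j : ℝ) + 1) * Real.log 2)) atTop atTop := by
    refine Real.tendsto_log_atTop.comp ?_
    refine Tendsto.atTop_mul_const (Real.log_pos (by norm_num)) ?_
    exact tendsto_atTop_add_const_right _ _ tendsto_natCast_atTop_atTop
  filter_upwards [hT.eventually_ge_atTop 9, ev_sqrt 1000] with j h9 hs n hn
  have l1 := Real.log_two_lt_d9
  have l2 := Real.log_two_gt_d9
  have hj0 : (0 : ℝ) ≤ j := Nat.cast_nonneg _
  set s : ℝ := √(j : ℝ) with hsd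
  have hss : s * s = j := Real.mul_self_sqrt hj0
  set g : ℝ := (j + 1) * Real.log 2 with hg
  set T : ℝ := Real.log g with hTd
  have hg0 : 0 < g := by rw [hg]; positivity
  -- the left side
  have hleft : Real.log (Real.log (Real.log n)) ≤ Real.log T := by
    apply log_le_of_abs (by linarith)
    rcases Nat.lt_or_ge n 3 with h | h
    · have hn2 : n = 0 ∨ n = 1 ∨ n = 2 := by omega
      rcases hn2 with rfl | rfl | rfl
      · simp only [Nat.cast_zero, Real.log_zero, abs_zero]; linarith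
      · simp only [Nat.cast_one, Real.log_one, Real.log_zero, abs_zero]; linarith
      · push_cast
        rw [abs_le]
        constructor
        · have h1 := Real.one_sub_inv_le_log_of_pos (show 0 < Real.log 2 by linarith)
          have h2 : (Real.log 2)⁻¹ ≤ 2 := by
            rw [inv_le_comm₀ (by linarith) (by norm_num)]
            linarith
          linarith
        · have h1 := Real.log_le_sub_one_of_pos (show 0 < Real.log 2 by linarith)
          linarith
    · have hn3 : (3 : ℝ) ≤ n := by exact_mod_cast h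
      have h1 : 1 ≤ Real.log n := by
        rw [Real.le_log_iff_exp_le (by linarith)]
        linarith [Real.exp_one_lt_d9]
      have h2 : Real.log n ≤ g := by
        rw [hg, ← log_two_XX]
        refine Real.log_le_log (by linarith) ?_
        exact_mod_cast hn
      rw [abs_of_nonneg (Real.log_nonneg h1)]
      exact Real.log_le_log (by linarith) h2
  -- the right side
  have hY : s / 2 ≤ (YY j : ℝ) := by
    have h1 : (YY j : ℝ) + 1 > √(Real.log (XX j)) := by
      rw [YY]
      exact_mod_cast Nat.lt_floor_add_one _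
    have h2 : 8 / 10 * s ≤ √(Real.log (XX j)) := by
      rw [log_XX]
      apply Real.le_sqrt_of_sq_le
      nlinarith
    linarith
  have hY3 : g ≤ (YY j : ℝ) ^ 3 := by
    have h1 : (s / 2) ^ 3 ≤ (YY j : ℝ) ^ 3 := pow_le_pow_left₀ (by linarith) hY 3
    have h2 : g ≤ s ^ 2 + 1 := by rw [hg]; nlinarith
    have h3 : 1000 * s ^ 2 ≤ s ^ 3 := by nlinarith [sq_nonneg s]
    nlinarith
  have hlY : T ≤ 3 * Real.log (YY j) := by
    have h1 : Real.log g ≤ Real.log ((YY j : ℝ) ^ 3) := Real.log_le_log hg0 hY3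
    rw [Real.log_pow] at h1
    exact_mod_cast h1
  have hll : Real.log (T / 3) ≤ Real.log (Real.log (YY j)) :=
    Real.log_le_log (by linarith) (by linarith)
  rw [Real.log_div (by linarith) (by norm_num)] at hll
  have h3 : 2 * Real.log 3 ≤ Real.log T := by
    have h4 : Real.log (3 ^ 2) ≤ Real.log T := Real.log_le_log (by norm_num) (by linarith)
    rw [Real.log_pow] at h4
    exact_mod_cast h4
  linarith

theorem XX_tendsto : Tendsto XX atTop atTop := by
  exact tendsto_pow_atTop_atTop_of_one_lt (by norm_num)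

theorem YY_tendsto : Tendsto YY atTop atTop :=
  tendsto_nat_floor_atTop.comp (Real.tendsto_sqrt_atTop.comp
    (Real.tendsto_log_atTop.comp (tendsto_natCast_atTop_atTop.comp XX_tendsto)))

end Pool.Agent.GM53
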