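import Pool.Agent.GM53.Cls
import Pool.Agent.GM53.Crt
import Pool.Agent.GM53.Blk
import Pool.Agent.GM53.LowNum

/-!
# GM53/LowS: the lower bound, almost surely
-/

set_option autoImplicit false

namespace Pool.Agent.GM53

open MeasureTheory ProbabilityTheory Filter Topology Finset

lemma primorial_dvd {a b : ℕ} (h : a ≤ b) : primorial a ∣ primorial b := by
  unfold primorial
  refine prod_dvd_prod_of_subset _ _ _ fun p hp => ?_
  rw [mem_filter, mem_range] at hp ⊢
  exact ⟨by omega, hp.2⟩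

lemma primorial_pos2 (n : ℕ) : 0 < primorial n := primorial_pos n

/-- the window argument at one scale -/
lemma one_scale {Ω : Type} [MeasurableSpace Ω] {μ : Measure Ω} [IsProbabilityMeasure μ]
    {E : ℕ → Set Ω} {z : ℕ → ℕ} (hE : ∀ m, MeasurableSet (E m)) (hi : iIndepSet E μ)
    (hp : ∀ m, μ.real (E m) = prob z m) {c0 : ℝ} (hc0 : 0 < c0) {j : ℕ} {a : ℕ → ℕ} {H : Finset ℕ}
    (hH : H ⊆ Icc 1 (YY j)) (ha : ∀ h ∈ H, ∀ p, p.Prime → p ≤ YY j → ¬ h ≡ a p [MOD p])
    (hsum : c0 * Real.log (Real.log (YY j)) ≤ ∑ h ∈ H, 1 / (h : ℝ))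
    (hB : 6 * BB j ≤ XX j)
    (hfail : (1 - (1 / Real.log (2 * (XX j : ℝ))) ^ YY j) ^ II j ≤ (1 / 2 : ℝ) ^ j)
    (hlog : ∀ n : ℕ, n ≤ 2 * XX j →
      (1 / 2) * Real.log (Real.log (Real.log n)) ≤ Real.log (Real.log (YY j)))
    (hX3 : 3 ≤ XX j) (hz : ∀ n : ℕ, XX j ≤ n → (z n : ℝ) ≤ Real.log n / 2) (hmert : ∀ y, 1 ≤ mert y) :
    ∃ W : ℕ → Finset ℕ, μ.real {ω | ∀ i < II j, ∃ m ∈ W i, ω ∉ E m} ≤ (1 / 2) ^ j ∧
      ∀ ω, ∀ i < II j, (∀ m ∈ W i, ω ∈ E m) → ∃ n, XX j ≤ n ∧
        c0 / 2 * Real.log (Real.log (Real.log n)) ≤ recip {m | ω ∈ E m} n := by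
  obtain ⟨n0, hn0⟩ := crt (YY j) (ZZ j) a
  set X := XX j with hX
  set y := YY j with hy
  set Z := ZZ j with hZ
  set B := BB j with hBdef
  set I := II j with hI
  have hP0 : 0 < primorial Z := primorial_pos2 Z
  have hBeq : B = primorial Z * (y + 1) := rfl
  have hB0 : 0 < B := by rw [hBeq]; positivity
  have hyB : y < B := by
    rw [hBeq]
    calc y < 1 * (y + 1) := by omega
      _ ≤ primorial Z * (y + 1) := Nat.mul_le_mul_right _ hP0
  set r := n0 % primorial Z with hr
  have hrB : r < B := by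
    have h1 : r < primorial Z := Nat.mod_lt _ hP0
    have h2 : primorial Z ≤ B := by rw [hBeq]; exact Nat.le_mul_of_pos_right _ (by omega)
    omega
  set s := X / B + 2 with hs
  set N : ℕ → ℕ := fun i => r + B * (s + i) with hN
  have hIeq : I = X / (2 * B) := rfl
  have hNlow : ∀ i, X + B < N i := by
    intro i
    have h1 := Nat.div_add_mod X B
    have h2 := Nat.mod_lt X hB0
    have h3 : B * (s + i) = B * (X / B) + 2 * B + B * i := by rw [hs]; ring
    simp only [hN]
    have h4 : 0 ≤ B * i := Nat.zero_le _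
    omega
  have hNup : ∀ i < I, N i ≤ 2 * X := by
    intro i hi'
    have h1 := Nat.div_add_mod X B
    have h3 : B * (s + i) = B * (X / B) + 2 * B + B * i := by rw [hs]; ring
    have h4 : B * (i + 1) * 2 ≤ X := by
      have h5 : B * (i + 1) * 2 ≤ B * I * 2 := by
        have : B * (i + 1) ≤ B * I := Nat.mul_le_mul_left _ hi'
        omega
      have h6 : B * I * 2 = 2 * B * (X / (2 * B)) := by rw [hIeq]; ring
      have h7 := Nat.mul_div_le X (2 * B)
      omega
    have h5 : B * (i + 1) = B * i + B := by ring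
    simp only [hN]
    omega
  have hNmod : ∀ i, N i ≡ n0 [MOD primorial Z] := by
    intro i
    have h1 : N i = r + primorial Z * ((y + 1) * (s + i)) := by
      simp only [hN, hBeq]; ring
    rw [h1]
    unfold Nat.ModEq
    rw [Nat.add_mul_mod_self_left, hr, Nat.mod_mod]
  have hHy : ∀ h ∈ H, 1 ≤ h ∧ h ≤ y := fun h hh => by
    have := hH hh
    rwa [mem_Icc] at this
  set W : ℕ → Finset ℕ := fun i => H.image fun h => N i - h with hW
  have hmemW : ∀ i < I, ∀ m ∈ W i, X < m ∧ m ≤ 2 * X ∧ m.Coprime (primorial Z) := by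
    intro i hi' m hm
    simp only [hW, mem_image] at hm
    obtain ⟨h, hh, rfl⟩ := hm
    obtain ⟨h1, h2⟩ := hHy h hh
    have h3 := hNlow i
    have h4 := hNup i hi'
    refine ⟨by omega, by omega, ?_⟩
    exact hn0 (N i) (hNmod i) h h1 h2 (by omega) (ha h hh)
  have hlogX : 1 ≤ Real.log (2 * (X : ℝ)) := by
    rw [Real.le_log_iff_exp_le (by positivity)]
    have h1 := Real.exp_one_lt_d9
    have h2 : (3 : ℝ) ≤ X := by exact_mod_cast hX3
    linarith
  refine ⟨W, ?_, ?_⟩
  · refine (blk_prob hE hi W I y (1 / Real.log (2 * (X : ℝ))) (by positivity)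
      (by rw [div_le_one (by linarith)]; exact hlogX) ?_ ?_ ?_).trans hfail
    · intro i hi1 i' hi2 hne
      rw [disjoint_left]
      intro m hm hm'
      simp only [hW, mem_image] at hm hm'
      obtain ⟨h, hh, rfl⟩ := hm
      obtain ⟨h', hh', he⟩ := hm'
      obtain ⟨h1, h2⟩ := hHy h hh
      obtain ⟨h3, h4⟩ := hHy h' hh'
      have h5 := hNlow i
      have h6 := hNlow i'
      rcases Nat.lt_or_gt_of_ne hne with hlt | hlt
      · have h7 : N i + B ≤ N i' := by
          have : B * (s + i) + B ≤ B * (s + i') := by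
            calc B * (s + i) + B = B * (s + i + 1) := by ring
              _ ≤ B * (s + i') := Nat.mul_le_mul_left _ (by omega)
          simp only [hN]
          omega
        omega
      · have h7 : N i' + B ≤ N i := by
          have : B * (s + i') + B ≤ B * (s + i) := by
            calc B * (s + i') + B = B * (s + i' + 1) := by ring
              _ ≤ B * (s + i) := Nat.mul_le_mul_left _ (by omega)
          simp only [hN]
          omega
        omega
    · intro i _
      refine card_image_le.trans ((card_le_card hH).trans ?_)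
      rw [Nat.card_Icc]
      omega
    · intro i hi1 m hm
      obtain ⟨h1, h2, h3⟩ := hmemW i hi1 m hm
      rw [hp]
      unfold prob
      have hzm : z m ≤ Z := by
        have h4 := hz m h1.le
        refine Nat.le_floor (h4.trans ?_)
        have h5 : Real.log m ≤ Real.log (2 * (X : ℝ)) := by
          refine Real.log_le_log (by exact_mod_cast (by omega : 0 < m)) ?_
          exact_mod_cast h2
        linarith
      rw [if_pos (Nat.Coprime.coprime_dvd_right (primorial_dvd hzm) h3)]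
      have h6 : 0 < Real.log m := Real.log_pos (by exact_mod_cast (by omega : 1 < m))
      have h5 : Real.log m ≤ Real.log (2 * (X : ℝ)) := by
        refine Real.log_le_log (by exact_mod_cast (by omega : 0 < m)) ?_
        exact_mod_cast h2
      refine le_min (by rw [div_le_one (by linarith)]; exact hlogX) ?_
      calc 1 / Real.log (2 * (X : ℝ)) ≤ 1 / Real.log m := one_div_le_one_div_of_le h6 h5
        _ ≤ mert (z m) / Real.log m := div_le_div_of_nonneg_right (hmert _) h6.le
  · intro ω i hi1 hall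
    refine ⟨N i, by have := hNlow i; omega, ?_⟩
    have h1 := hlog (N i) (hNup i hi1)
    have h2 : c0 / 2 * Real.log (Real.log (Real.log (N i : ℝ))) ≤ ∑ h ∈ H, 1 / (h : ℝ) := by
      refine le_trans ?_ hsum
      calc c0 / 2 * Real.log (Real.log (Real.log (N i : ℝ))) =
          c0 * (1 / 2 * Real.log (Real.log (Real.log (N i : ℝ)))) := by ring
        _ ≤ c0 * Real.log (Real.log y) := mul_le_mul_of_nonneg_left h1 hc0.le
    refine h2.trans ?_
    have hinj : Set.InjOn (fun h => N i - h) (H : Set ℕ) := by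
      intro h hh h' hh' he
      have h3 := hHy h hh
      have h4 := hHy h' hh'
      have h5 := hNlow i
      simp only at he
      omega
    have h3 : ∑ h ∈ H, 1 / (h : ℝ) = ∑ m ∈ W i, {m | ω ∈ E m}.indicator
        (fun m => 1 / (((N i : ℕ) : ℝ) - m)) m := by
      simp only [hW]
      rw [sum_image hinj]
      refine sum_congr rfl fun h hh => ?_
      have h5 := hNlow i
      have h6 := hHy h hh
      have hm : (N i - h) ∈ {m | ω ∈ E m} := hall _ (by
        simp only [hW, mem_image]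
        exact ⟨h, hh, rfl⟩)
      rw [Set.indicator_of_mem hm]
      rw [Nat.cast_sub (by omega)]
      congr 1
      ring
    rw [h3]
    unfold recip
    refine sum_le_sum_of_subset_of_nonneg ?_ ?_
    · intro m hm
      simp only [hW, mem_image] at hm
      obtain ⟨h, hh, rfl⟩ := hm
      have h5 := hNlow i
      have h6 := hHy h hh
      rw [mem_range]
      omega
    · intro m hm _
      rw [mem_range] at hm
      have hm' : (m : ℝ) < (N i : ℕ) := by exact_mod_cast hm
      by_cases h : m ∈ {m | ω ∈ E m}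
      · rw [Set.indicator_of_mem h]
        exact one_div_nonneg.2 (by linarith)
      · rw [Set.indicator_of_notMem h]

theorem as_lowS : ∃ c : ℝ, 0 < c ∧ ∀ (Ω : Type) [MeasurableSpace Ω] (μ : Measure Ω) [IsProbabilityMeasure μ]
    (E : ℕ → Set Ω) (z : ℕ → ℕ), (∀ m, MeasurableSet (E m)) → iIndepSet E μ →
    (∀ m, μ.real (E m) = prob z m) → (∀ᶠ n : ℕ in atTop, (z n : ℝ) ≤ Real.log n / 2) →
    ∀ᵐ ω ∂μ, ∃ᶠ n : ℕ in atTop,
      c * Real.log (Real.log (Real.log n)) ≤ recip {m | ω ∈ E m} n := by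
  obtain ⟨c0, hc0, hcls⟩ := cls
  refine ⟨c0 / 2, by positivity, ?_⟩
  intro Ω _ μ _ E z hE hi hp hz
  obtain ⟨N0, hN0⟩ := eventually_atTop.1 hz
  have hev : ∀ᶠ j : ℕ in atTop, ∃ W : ℕ → Finset ℕ,
      μ.real {ω | ∀ i < II j, ∃ m ∈ W i, ω ∉ E m} ≤ (1 / 2) ^ j ∧
      ∀ ω, ∀ i < II j, (∀ m ∈ W i, ω ∈ E m) → ∃ n, XX j ≤ n ∧
        c0 / 2 * Real.log (Real.log (Real.log n)) ≤ recip {m | ω ∈ E m} n := by
    filter_upwards [BB_small, fail_small, loglog_y, YY_tendsto.eventually hcls,
      XX_tendsto.eventually_ge_atTop 3, XX_tendsto.eventually_ge_atTop N0] with j h1 h2 h3 h4 h5 h6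
    obtain ⟨a, H, h7, h8, h9⟩ := h4
    exact one_scale hE hi hp hc0 h7 h8 h9 h1 h2 h3 h5 (fun n hn => hN0 n (h6.trans hn)) one_le_mert
  obtain ⟨J0, hJ0⟩ := eventually_atTop.1 hev
  choose! W hW1 hW2 using hJ0
  set F : ℕ → Set Ω := fun j => if J0 ≤ j then {ω | ∀ i < II j, ∃ m ∈ W j i, ω ∉ E m} else ∅ with hF
  have hFle : ∀ j, μ (F j) ≤ ENNReal.ofReal ((1 / 2) ^ j) := by
    intro j
    simp only [hF]
    split_ifs with h
    · have h1 := hW1 j h
      rw [Measure.real] at h1
      rw [← ENNReal.ofReal_toReal (measure_ne_top μ _)]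
      exact ENNReal.ofReal_le_ofReal h1
    · simp
  have hsum : ∑' j, μ (F j) ≠ ⊤ := by
    have h1 : ∑' j, μ (F j) ≤ ∑' j : ℕ, ENNReal.ofReal ((1 / 2) ^ j) := ENNReal.tsum_le_tsum hFle
    have h2 : Summable fun j : ℕ => ((1 / 2 : ℝ)) ^ j :=
      summable_geometric_of_lt_one (by norm_num) (by norm_num)
    rw [← ENNReal.ofReal_tsum_of_nonneg (fun j => by positivity) h2] at h1
    exact ne_top_of_le_ne_top ENNReal.ofReal_ne_top h1
  filter_upwards [ae_eventually_notMem hsum] with ω hω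
  rw [frequently_atTop]
  intro K
  obtain ⟨j, h1, h2, h3⟩ := (hω.and ((eventually_ge_atTop J0).and
    (XX_tendsto.eventually_ge_atTop K))).exists
  simp only [hF, if_pos h2, Set.mem_setOf_eq, not_forall] at h1
  obtain ⟨i, hi1, hi2⟩ := h1
  push Not at hi2
  obtain ⟨n, hn1, hn2⟩ := hW2 j h2 ω i hi1 hi2
  exact ⟨n, h3.trans hn1, hn2⟩

end Pool.Agent.GM53
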