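import Pool.Agent.GM53.Cls
import Pool.Agent.GM53.Crt
import Pool.Agent.GM53.Blk
import Pool.Agent.GM53.LowNum
import Pool.Agent.GM53.LowS

/-!
# GM53/Low: the lower bound, almost surely (proof in LowS)
-/

set_option autoImplicit false

namespace Pool.Agent.GM53

open MeasureTheory ProbabilityTheory Filter Topology Finset

variable {Ω : Type*} [mΩ : MeasurableSpace Ω] {μ : Measure Ω} {E : ℕ → Set Ω}

/-- PROOF. Fix a large `j` and put `X, Z, y, B, I` as in `LowNum`. `cls` (at `y`) gives `a`, `H`; `crt` (at `y`, `Z`) gives `n₀`.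
Put `r = n₀ % primorial Z`, `s = X / B + 2`, `n_i = r + B * (s + i)` for `i < I`. Then `X < n_i - y`, `n_i ≤ 2X`,
`n_i ≡ n₀` mod `primorial Z`, the windows `W_i = {n_i - h : h ∈ H}` are disjoint (`y < B`), every `m ∈ W_i` is in `(X, 2X]`,
coprime to `primorial Z`, hence (as `z m ≤ log (2X) / 2`, so `z m ≤ Z`, `primorial (z m) ∣ primorial Z`) coprime to
`primorial (z m)`, so `μ (E m) = min 1 (mert / log m) ≥ 1 / log (2X)` (`m ≥ 3`). If all of `W_i` is in the random set then
`recip A n_i ≥ ∑_{h ∈ H} 1/h ≥ c log log y ≥ (c/2) log log log n_i`. `blk_prob` and `fail_small`: the probability that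
no `i < I` works is `≤ 2^(-j)`; Borel-Cantelli (`measure_limsup_atTop_eq_zero` / `ae_eventually_notMem`), so almost surely for all
large `j` some `i` works, and `n_i > X = 2^j`. -/
theorem as_low : ∃ c : ℝ, 0 < c ∧ ∀ (Ω : Type) [MeasurableSpace Ω] (μ : Measure Ω) [IsProbabilityMeasure μ]
    (E : ℕ → Set Ω) (z : ℕ → ℕ), (∀ m, MeasurableSet (E m)) → iIndepSet E μ →
    (∀ m, μ.real (E m) = prob z m) → (∀ᶠ n : ℕ in atTop, (z n : ℝ) ≤ Real.log n / 2) →
    ∀ᵐ ω ∂μ, ∃ᶠ n : ℕ in atTop,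
      c * Real.log (Real.log (Real.log n)) ≤ recip {m | ω ∈ E m} n :=
  as_lowS

end Pool.Agent.GM53
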