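import Pool.Agent.GM53.UpDet
import Pool.Agent.GM53.Blk

/-!
# GM53/UpS78: the upper bound, almost surely
-/

set_option autoImplicit false

namespace Pool.Agent.GM53

open MeasureTheory ProbabilityTheory Filter Topology Finset

theorem UpS78_bc {Ω : Type} [MeasurableSpace Ω] (μ : Measure Ω) [IsProbabilityMeasure μ]
    (E : ℕ → Set Ω) (hE : ∀ m, MeasurableSet (E m)) (hi : iIndepSet E μ) :
    ∀ᵐ ω ∂μ, ∀ᶠ n : ℕ in atTop, ∀ i < Nat.log 2 n,
      ∑ m ∈ Ico (n - 2 ^ (i + 1)) (n - 2 ^ i), (E m).indicator (fun _ => (1 : ℝ)) ω <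
        2 * ∑ m ∈ Ico (n - 2 ^ (i + 1)) (n - 2 ^ i), μ.real (E m) + 5 * Real.log n := by
  set ev : ℕ → ℕ → Set Ω := fun n i =>
    {ω | 2 * ∑ m ∈ Ico (n - 2 ^ (i + 1)) (n - 2 ^ i), μ.real (E m) + 5 * Real.log n ≤
      ∑ m ∈ Ico (n - 2 ^ (i + 1)) (n - 2 ^ i), (E m).indicator (fun _ => (1 : ℝ)) ω} with hev
  set bad : ℕ → Set Ω := fun n => ⋃ i ∈ range (Nat.log 2 n), ev n i with hbad
  have h1 : ∀ n, μ (bad n) ≤ ENNReal.ofReal (1 / (n : ℝ) ^ 2) := by
    intro n
    have h2 : μ (bad n) ≤ ∑ i ∈ range (Nat.log 2 n), μ (ev n i) := measure_biUnion_finset_le _ _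
    have h3 : ∀ i ∈ range (Nat.log 2 n), μ (ev n i) ≤
        ENNReal.ofReal (Real.exp (-(5 * Real.log n))) := by
      intro i _
      have h4 := chernoff (μ := μ) hE hi (Ico (n - 2 ^ (i + 1)) (n - 2 ^ i)) (5 * Real.log n)
      rw [← ofReal_measureReal (μ := μ) (s := ev n i)]
      exact ENNReal.ofReal_le_ofReal h4
    refine (h2.trans (sum_le_sum h3)).trans ?_
    rw [sum_const, card_range, nsmul_eq_mul, ← ENNReal.ofReal_natCast (Nat.log 2 n),
      ← ENNReal.ofReal_mul (Nat.cast_nonneg _)]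
    refine ENNReal.ofReal_le_ofReal ?_
    rcases Nat.eq_zero_or_pos n with h0 | h0
    · subst h0
      simp
    · have hn : (0 : ℝ) < n := by exact_mod_cast h0
      have hn1 : (1 : ℝ) ≤ n := by exact_mod_cast h0
      have e1 : Real.exp (-(5 * Real.log n)) = 1 / (n : ℝ) ^ 5 := by
        rw [Real.exp_neg, mul_comm, Real.exp_mul, Real.exp_log hn, one_div]
        norm_cast
      have e2 : ((Nat.log 2 n : ℕ) : ℝ) ≤ n := by exact_mod_cast (Nat.log_le_self 2 n)
      rw [e1, mul_one_div, div_le_div_iff₀ (by positivity) (by positivity)]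
      have h5 : (1 : ℝ) ≤ (n : ℝ) ^ 2 := one_le_pow₀ hn1
      have h6 : ((Nat.log 2 n : ℕ) : ℝ) * (n : ℝ) ^ 2 ≤ (n : ℝ) * (n : ℝ) ^ 2 :=
        mul_le_mul_of_nonneg_right e2 (by positivity)
      nlinarith [pow_pos hn 3]
  have h2 : ∑' n, μ (bad n) ≠ ⊤ := by
    refine ne_top_of_le_ne_top ?_ (ENNReal.tsum_le_tsum h1)
    exact (Real.summable_one_div_nat_pow.2 one_lt_two).tsum_ofReal_ne_top
  filter_upwards [ae_eventually_notMem h2] with ω hω
  filter_upwards [hω] with n hn i hi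
  by_contra hcon
  push Not at hcon
  exact hn (Set.mem_biUnion (mem_range.2 hi) hcon)

theorem as_up78 (δ : ℝ) (h0 : 0 < δ) (h1 : δ ≤ 1) : ∃ C : ℝ, 0 < C ∧ ∀ (Ω : Type)
    [MeasurableSpace Ω]
    (μ : Measure Ω) [IsProbabilityMeasure μ] (E : ℕ → Set Ω) (z : ℕ → ℕ), (∀ m, MeasurableSet (E m)) →
    iIndepSet E μ → (∀ m, μ.real (E m) = prob z m) →
    (∀ᶠ n : ℕ in atTop, Real.log n ^ δ ≤ z n ∧ (z n : ℝ) ≤ Real.log n / 2) →
    ∀ᵐ ω ∂μ, ∀ᶠ n : ℕ in atTop,
      recip {m | ω ∈ E m} n ≤ C * Real.log (Real.log (Real.log n)) := by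
  obtain ⟨C₁, hC₁, hs⟩ := small_scales δ h0 h1
  obtain ⟨C₂, hC₂, hm⟩ := mean_le δ h0 h1
  obtain ⟨C₃, hC₃, hl⟩ := large_scales C₂ hC₂
  refine ⟨5 + C₁ + C₃, by linarith, ?_⟩
  intro Ω _ μ _ E z hE hi hp hz
  have hcop : ∀ᵐ ω ∂μ, ∀ m, ω ∈ E m → m.Coprime (primorial (z m)) := by
    rw [ae_all_iff]
    intro m
    by_cases hc : m.Coprime (primorial (z m))
    · exact Filter.Eventually.of_forall fun _ _ => hc
    · have h2 : μ.real (E m) = 0 := by
        rw [hp m]
        unfold prob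
        rw [if_neg hc]
      have h3 : μ (E m) = 0 := by
        rw [measureReal_def] at h2
        exact ((ENNReal.toReal_eq_zero_iff _).1 h2).resolve_right (measure_ne_top μ _)
      have h4 : ∀ᵐ ω ∂μ, ω ∉ E m := measure_eq_zero_iff_ae_notMem.1 h3
      filter_upwards [h4] with ω hω hω'
      exact absurd hω' hω
  have hlll : Tendsto (fun n : ℕ => Real.log (Real.log (Real.log n))) atTop atTop :=
    Real.tendsto_log_atTop.comp (Real.tendsto_log_atTop.comp
      (Real.tendsto_log_atTop.comp tendsto_natCast_atTop_atTop))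
  filter_upwards [hcop, UpS78_bc μ E hE hi] with ω hω1 hω2
  have hs' := hs z (hz.mono fun _ h => h.1)
  have hm' := hm z hz
  filter_upwards [hω2, hs', hm', hl, hlll.eventually_ge_atTop 1, eventually_ge_atTop 4] with n
    g1 g2 g3 g4 g5 g6
  set A : Set ℕ := {m | ω ∈ E m} with hA
  have hcnt : ∀ i, cnt A n i =
      ∑ m ∈ Ico (n - 2 ^ (i + 1)) (n - 2 ^ i), (E m).indicator (fun _ => (1 : ℝ)) ω := by
    intro i
    unfold cnt
    refine sum_congr rfl fun m _ => ?_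
    by_cases hm : ω ∈ E m
    · rw [Set.indicator_of_mem hm, Set.indicator_of_mem (show m ∈ A from hm)]
    · rw [Set.indicator_of_notMem hm, Set.indicator_of_notMem (show m ∉ A from hm)]
  have hnn : ∀ i, 0 ≤ cnt A n i / 2 ^ i := by
    intro i
    refine div_nonneg ?_ (by positivity)
    unfold cnt
    exact sum_nonneg fun m _ => Set.indicator_nonneg (fun _ _ => zero_le_one) m
  have k1 := split_scales A n g6
  have k2 := g2 A (fun m hm => hω1 m hm)
  have k3 := g4 A (by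
    intro i hi1 hi2
    have h5 := g1 i (by omega)
    have h6 := g3 i hi1 hi2
    rw [hcnt]
    have h7 : ∑ m ∈ Ico (n - 2 ^ (i + 1)) (n - 2 ^ i), μ.real (E m) =
        ∑ m ∈ Ico (n - 2 ^ (i + 1)) (n - 2 ^ i), prob z m := sum_congr rfl fun m _ => hp m
    rw [h7] at h5
    linarith)
  have hdis : Disjoint (range (Lg n)) (Ico (Lg n) (Nat.log 2 n - 1)) := by
    rw [disjoint_left]
    intro i h5 h6
    rw [mem_range] at h5
    rw [mem_Ico] at h6
    omega
  have k4 : ∑ i ∈ range (Nat.log 2 n - 1), cnt A n i / 2 ^ i ≤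
      ∑ i ∈ range (Lg n), cnt A n i / 2 ^ i +
        ∑ i ∈ Ico (Lg n) (Nat.log 2 n - 1), cnt A n i / 2 ^ i := by
    rw [← sum_union hdis]
    refine sum_le_sum_of_subset_of_nonneg ?_ (fun i _ _ => hnn i)
    intro i h5
    rw [mem_range] at h5
    rw [mem_union, mem_range, mem_Ico]
    omega
  have k5 : 5 + C₃ ≤ (5 + C₃) * Real.log (Real.log (Real.log n)) :=
    le_mul_of_one_le_right (by linarith) g5
  have k6 : (5 + C₁ + C₃) * Real.log (Real.log (Real.log n)) =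
      C₁ * Real.log (Real.log (Real.log n)) +
        (5 + C₃) * Real.log (Real.log (Real.log n)) := by ring
  rw [k6]
  linarith

end Pool.Agent.GM53
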