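import Pool.Agent.GM53.UpDet
import Pool.Agent.GM53.Blk
import Pool.Agent.GM53.UpS78

/-!
# GM53/Up: the upper bound, almost surely (STUB)
-/

set_option autoImplicit false

namespace Pool.Agent.GM53

open MeasureTheory ProbabilityTheory Filter Topology Finset

/-- PROOF. `E m` is null if `m` is not coprime to `primorial (z m)`, so almost surely the random set satisfies the hypothesis of
`small_scales`. For a large scale `i` (`Lg n ≤ i`, `i + 1 < Nat.log 2 n`) `chernoff` with `t = 5 log n` and `mean_le` give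
probability `≤ n^(-5)` for `cnt A n i > 2 C 2^i / log n + 5 log n`; there are at most `n` scales, `∑ n^(-4) < ∞`,
Borel-Cantelli. Then `split_scales`, `small_scales`, `large_scales` (`log log log n → ∞`). -/
theorem as_up (δ : ℝ) (h0 : 0 < δ) (h1 : δ ≤ 1) : ∃ C : ℝ, 0 < C ∧ ∀ (Ω : Type) [MeasurableSpace Ω]
    (μ : Measure Ω) [IsProbabilityMeasure μ] (E : ℕ → Set Ω) (z : ℕ → ℕ), (∀ m, MeasurableSet (E m)) →
    iIndepSet E μ → (∀ m, μ.real (E m) = prob z m) →
    (∀ᶠ n : ℕ in atTop, Real.log n ^ δ ≤ z n ∧ (z n : ℝ) ≤ Real.log n / 2) →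
    ∀ᵐ ω ∂μ, ∀ᶠ n : ℕ in atTop,
      recip {m | ω ∈ E m} n ≤ C * Real.log (Real.log (Real.log n)) :=
  as_up78 δ h0 h1

end Pool.Agent.GM53
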