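import Pool.Agent.GM53.Low
import Pool.Agent.GM53.Up

/-!
# GM53/Main
-/

set_option autoImplicit false

namespace Pool.Agent.GM53

open MeasureTheory ProbabilityTheory Filter Topology Finset

instance (z : ℕ → ℕ) (m : ℕ) : IsProbabilityMeasure (coin z m) := by
  constructor
  unfold coin
  have h0 := prob_nonneg z m
  have h1 := prob_le_one z m
  simp only [Measure.coe_add, Measure.coe_smul, Pi.add_apply, Pi.smul_apply, measure_univ,
    smul_eq_mul, mul_one]
  rw [← ENNReal.ofReal_add h0 (by linarith), add_sub_cancel, ENNReal.ofReal_one]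

lemma coin_true (z : ℕ → ℕ) (m : ℕ) : coin z m {true} = ENNReal.ofReal (prob z m) := by
  unfold coin
  simp

/-- the random set of the model is given by independent events -/
theorem model_facts (z : ℕ → ℕ) :
    (∀ m : ℕ, MeasurableSet {ω : ℕ → Bool | ω m = true}) ∧
    iIndepSet (fun m : ℕ => {ω : ℕ → Bool | ω m = true}) (Measure.infinitePi (coin z)) ∧
    ∀ m : ℕ, (Measure.infinitePi (coin z)).real {ω : ℕ → Bool | ω m = true} = prob z m := by
  have hm : ∀ m : ℕ, MeasurableSet {ω : ℕ → Bool | ω m = true} := fun m => by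
    have h : Measurable (fun ω : ℕ → Bool => ω m) := measurable_pi_apply m
    exact h (measurableSet_singleton true)
  have key : ∀ s : Finset ℕ, Measure.infinitePi (coin z) (⋂ m ∈ s, {ω : ℕ → Bool | ω m = true})
      = ∏ m ∈ s, ENNReal.ofReal (prob z m) := by
    intro s
    have e : (⋂ m ∈ s, {ω : ℕ → Bool | ω m = true})
        = Set.pi (s : Set ℕ) (fun _ => ({true} : Set Bool)) := by
      ext ω
      simp [Set.mem_pi]
    rw [e, Measure.infinitePi_pi _ (fun m _ => measurableSet_singleton true)]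
    exact prod_congr rfl fun m _ => coin_true z m
  have key1 : ∀ m : ℕ, Measure.infinitePi (coin z) {ω : ℕ → Bool | ω m = true} =
      ENNReal.ofReal (prob z m) := by
    intro m
    have := key {m}
    simpa using this
  refine ⟨hm, ?_, ?_⟩
  · rw [iIndepSet_iff_meas_biInter hm]
    intro s
    rw [key s]
    exact prod_congr rfl fun m _ => (key1 m).symm
  · intro m
    rw [Measure.real, key1 m, ENNReal.toReal_ofReal (prob_nonneg z m)]

/-- THE THEOREM. -/
theorem granville_main (δ : ℝ) (hδ : 0 < δ) (hδ1 : δ ≤ 1) : ∃ c C : ℝ, 0 < c ∧ 0 < C ∧ ∀ z : ℕ → ℕ,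
    (∀ᶠ n : ℕ in atTop, Real.log n ^ δ ≤ z n ∧ (z n : ℝ) ≤ Real.log n / 2) →
    ∀ᵐ ω ∂(Measure.infinitePi (coin z)),
      (∃ᶠ n : ℕ in atTop, c * Real.log (Real.log (Real.log n)) ≤ recip {m | ω m = true} n) ∧
      (∀ᶠ n : ℕ in atTop, recip {m | ω m = true} n ≤ C * Real.log (Real.log (Real.log n))) := by
  obtain ⟨c, hc, hlow⟩ := as_low
  obtain ⟨C, hC, hup⟩ := as_up δ hδ hδ1
  refine ⟨c, C, hc, hC, fun z hz => ?_⟩
  obtain ⟨h1, h2, h3⟩ := model_facts z
  filter_upwards [hlow _ (Measure.infinitePi (coin z)) (fun m => {ω : ℕ → Bool | ω m = true}) z h1 h2 h3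
    (hz.mono fun n hn => hn.2), hup _ (Measure.infinitePi (coin z))
      (fun m => {ω : ℕ → Bool | ω m = true}) z h1 h2 h3 hz] with ω ha hb
  exact ⟨ha, hb⟩

end Pool.Agent.GM53
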