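import Pool.Agent.GM53.Defs
import Pool.Agent.TotGap.BT

/-!
# GM53/Sieve: integers without small prime factors in an interval

`H14Trans.fundamental` with `κ = 1`, as in `TotGap.bt`.
-/

set_option autoImplicit false

namespace Pool.Agent.GM53

open Finset Pool.Agent.H14Trans Pool.Agent.TotGap

theorem good_primes_S (x w : ℕ) : Good (bd 1 x {0}) (fun _ => 1)
    ((Icc 2 w).filter Nat.Prime) := by
  classical
  refine ⟨?_, ?_, ?_, ?_⟩
  · intro b hb
    rw [mem_filter] at hb
    exact hb.2.pos
  · intro b _ s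
    exact bd_periodic 1 x {0} b s
  · intro b hb
    rw [mem_filter] at hb
    have := card_bd (b := b) (c := 1) (e := x) (n := 0) (A := {0}) (by simp) hb.2.pos
      (Nat.coprime_one_left b)
    simpa using this
  · intro b hb c hc hbc
    rw [mem_filter] at hb hc
    exact (Nat.coprime_primes hb.2 hc.2).mpr hbc

/-- PROOF. `H14Trans.fundamental` with `κ = 1`, `bad b s := b ∣ x + s`, `ω = 1`, `D` = primes `≤ y₀^(2^J)`; the mass condition
is Mertens (`Sv.abs_sum_inv_sub_le` or `PalSieve`); `J` maximal with `(y₀^(2^J))^s₁ ≤ T` and `y₀^(2^J) ≤ w` (so `log w ≤ K log (y₀^(2^J))`),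
and `∏_{p ≤ y} (1 - 1/p) ≤ C / log y`. For small `w` or `T` the bound is trivial (`C` large). -/
theorem sieve_int : ∃ C : ℝ, 0 < C ∧ ∀ w T x : ℕ, 2 ≤ w → w ≤ T →
    (((range T).filter fun s => (x + s).Coprime (primorial w)).card : ℝ) ≤ C * T / Real.log w := by
  classical
  obtain ⟨s₁, hs₁, H⟩ := fundamental 1 16 (by norm_num)
  obtain ⟨J₀, HJ⟩ := H 4 (by norm_num)
  obtain ⟨w₀, hw₀⟩ : ∃ w₀ : ℕ, w₀ = (4 ^ (2 ^ J₀)) ^ s₁ := ⟨_, rfl⟩
  have hw₀1 : 1 ≤ w₀ := by rw [hw₀]; exact Nat.one_le_pow _ _ (by positivity)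
  refine ⟨8 * Real.exp 14 * s₁ + Real.log w₀, ?_, ?_⟩
  · have : 0 ≤ Real.log w₀ := Real.log_natCast_nonneg w₀
    have : (0 : ℝ) < s₁ := by exact_mod_cast (by omega : 0 < s₁)
    positivity
  intro w T x hw hT
  have hlogw : 0 < Real.log w := Real.log_pos (by exact_mod_cast (by omega : 1 < w))
  have hl0 : 0 ≤ Real.log w₀ := Real.log_natCast_nonneg w₀
  have hs0 : (0 : ℝ) ≤ s₁ := Nat.cast_nonneg _
  have hT0 : (0 : ℝ) ≤ T := Nat.cast_nonneg _
  by_cases hsm : w₀ ≤ w
  swap
  · -- small `w`
    have h1 : (((range T).filter fun s => (x + s).Coprime (primorial w)).card : ℝ) ≤ T := by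
      have := card_filter_le (range T) (fun s => (x + s).Coprime (primorial w))
      rw [card_range] at this
      exact_mod_cast this
    refine h1.trans ?_
    rw [le_div_iff₀ hlogw]
    have h2 : Real.log w ≤ Real.log w₀ :=
      Real.log_le_log (by exact_mod_cast (by omega : 0 < w)) (by exact_mod_cast (not_le.1 hsm).le)
    have h3 : Real.log w ≤ 8 * Real.exp 14 * s₁ + Real.log w₀ := by
      have : (0 : ℝ) ≤ 8 * Real.exp 14 * s₁ := by positivity
      linarith
    calc (T : ℝ) * Real.log w ≤ T * (8 * Real.exp 14 * s₁ + Real.log w₀) :=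
          mul_le_mul_of_nonneg_left h3 hT0
      _ = _ := by ring
  · rw [hw₀] at hsm
    obtain ⟨J, hJ, hwy, hyw⟩ := exists_scale (a := 4) (by norm_num) (by omega) hsm
    obtain ⟨y, hy⟩ : ∃ y : ℕ, y = 4 ^ (2 ^ J) := ⟨_, rfl⟩
    have hy2 : 2 ≤ y := by
      rw [hy]
      calc 2 ≤ 4 := by norm_num
        _ ≤ 4 ^ (2 ^ J) := Nat.le_self_pow (by positivity) _
    rw [← hy] at hwy
    have hywle : y ≤ w := (Nat.le_self_pow (by omega) y).trans hwy
    obtain ⟨_, hN⟩ := HJ J hJ (bd 1 x {0}) (fun _ => 1) ((Icc 2 y).filter Nat.Prime)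
      (good_primes_S x y) (fun b hb => by
        rw [mem_filter] at hb
        exact ⟨le_rfl, hb.2.one_lt⟩) (fun b hb => by
        rw [mem_filter, mem_Icc] at hb
        rw [← hy]
        exact hb.1.2) (fun i _ => lay_mass (by norm_num))
    have hub := (hN T (by rw [← hy]; exact hwy.trans hT)).2
    have hcard : #((range T).filter fun s => (x + s).Coprime (primorial w)) ≤
        #((range T).filter (Sift (bd 1 x {0}) ((Icc 2 y).filter Nat.Prime))) := by
      refine card_le_card ?_
      intro s hs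
      rw [mem_filter] at hs ⊢
      refine ⟨hs.1, ?_⟩
      intro b hb hbad
      rw [mem_filter, mem_Icc] at hb
      obtain ⟨a, ha, hdiv⟩ := hbad
      rw [mem_singleton] at ha
      subst ha
      have e : 1 * s + (x + 0) = x + s := by omega
      rw [e] at hdiv
      have h4 : b ∣ primorial w := (Nat.Prime.dvd_primorial_iff hb.2).2 (hb.1.2.trans hywle)
      have h5 := Nat.dvd_gcd hdiv h4
      rw [hs.2] at h5
      exact hb.2.one_lt.ne' (Nat.dvd_one.mp h5)
    have hlogy : 0 < Real.log y := Real.log_pos (by exact_mod_cast (by omega : 1 < y))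
    have hlog : Real.log w ≤ 2 * s₁ * Real.log y := by
      have h1 : (w : ℝ) ≤ (y : ℝ) ^ (2 * s₁) := by
        have : w ≤ y ^ (2 * s₁) := by
          refine hyw.le.trans ?_
          rw [pow_succ, pow_mul, ← hy, ← pow_mul]
        exact_mod_cast this
      have h2 := Real.log_le_log (by exact_mod_cast (by omega : 0 < w)) h1
      rw [Real.log_pow] at h2
      push_cast at h2
      exact h2
    have hprod := prod_primes_le hy2
    have h3 : Real.log 2 / Real.log y ≤ 2 * s₁ / Real.log w := by
      rw [div_le_div_iff₀ hlogy hlogw]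
      have hl2 : Real.log 2 ≤ 1 := by
        have := Real.log_two_lt_d9; linarith
      calc Real.log 2 * Real.log w ≤ 1 * Real.log w := by gcongr
        _ ≤ _ := by linarith
    calc (#((range T).filter fun s => (x + s).Coprime (primorial w)) : ℝ)
        ≤ (#((range T).filter (Sift (bd 1 x {0}) ((Icc 2 y).filter Nat.Prime))) : ℝ) := by
          exact_mod_cast hcard
      _ ≤ 2 * T * ∏ b ∈ (Icc 2 y).filter Nat.Prime, (1 - (1 : ℝ) / b) := by
          refine hub.trans (le_of_eq ?_)
          simp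
      _ ≤ 2 * T * (2 * Real.exp 14 * (2 * s₁ / Real.log w)) := by
          refine mul_le_mul_of_nonneg_left (hprod.trans ?_) (by positivity)
          exact mul_le_mul_of_nonneg_left h3 (by positivity)
      _ = 8 * Real.exp 14 * s₁ * T / Real.log w := by ring
      _ ≤ (8 * Real.exp 14 * s₁ + Real.log w₀) * T / Real.log w := by
          refine div_le_div_of_nonneg_right ?_ hlogw.le
          exact mul_le_mul_of_nonneg_right (by linarith) hT0

end Pool.Agent.GM53
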