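import Pool.Agent.GM53.Sieve

/-!
# GM53/SmallS75: the small scales of the upper bound (helper75)
-/

set_option autoImplicit false

namespace Pool.Agent.GM53

open Filter Topology Finset

lemma ss75_primorial_dvd {w z : ℕ} (h : w ≤ z) : primorial w ∣ primorial z := by
  unfold primorial
  refine prod_dvd_prod_of_subset _ _ _ fun p hp => ?_
  rw [mem_filter, mem_range] at hp ⊢
  exact ⟨by omega, hp.2⟩

open Classical in
lemma ss75_cnt_eq (A : Set ℕ) {n i : ℕ} (hn : 2 ^ (i + 1) ≤ n) :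
    cnt A n i = (((range (2 ^ i)).filter fun s => n - 2 ^ (i + 1) + s ∈ A).card : ℝ) := by
  unfold cnt
  have h1 : n - 2 ^ i - (n - 2 ^ (i + 1)) = 2 ^ i := by
    rw [pow_succ] at hn ⊢
    omega
  rw [sum_Ico_eq_sum_range, h1, card_filter, Nat.cast_sum]
  refine sum_congr rfl fun s _ => ?_
  by_cases hs : n - 2 ^ (i + 1) + s ∈ A
  · rw [Set.indicator_of_mem hs, if_pos hs, Nat.cast_one]
  · rw [Set.indicator_of_notMem hs, if_neg hs, Nat.cast_zero]

lemma ss75_cnt_le_pow (A : Set ℕ) {n i : ℕ} (hn : 2 ^ (i + 1) ≤ n) :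
    cnt A n i ≤ 2 ^ i := by
  classical
  rw [ss75_cnt_eq A hn]
  have h1 := card_filter_le (range (2 ^ i)) (fun s => n - 2 ^ (i + 1) + s ∈ A)
  rw [card_range] at h1
  exact_mod_cast h1

lemma ss75_cnt_le (A : Set ℕ) {n i w : ℕ} (hn : 2 ^ (i + 1) ≤ n)
    (hA : ∀ m ∈ A, n - 2 ^ (i + 1) ≤ m → m.Coprime (primorial w)) :
    cnt A n i ≤ (((range (2 ^ i)).filter fun s =>
      (n - 2 ^ (i + 1) + s).Coprime (primorial w)).card : ℝ) := by
  classical
  rw [ss75_cnt_eq A hn]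
  have h1 : ((range (2 ^ i)).filter fun s => n - 2 ^ (i + 1) + s ∈ A) ⊆
      ((range (2 ^ i)).filter fun s => (n - 2 ^ (i + 1) + s).Coprime (primorial w)) := by
    intro s hs
    rw [mem_filter] at hs ⊢
    exact ⟨hs.1, hA _ hs.2 (Nat.le_add_right _ _)⟩
  exact_mod_cast card_le_card h1

/-- the number `w` of the scale `i` -/
lemma ss75_w {δ : ℝ} (h0 : 0 < δ) (h1 : δ ≤ 1) {i : ℕ} (hi : 2 / δ ≤ i) :
    2 ≤ ⌊((2 : ℝ) ^ i) ^ δ⌋₊ ∧ ⌊((2 : ℝ) ^ i) ^ δ⌋₊ ≤ 2 ^ i ∧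
      (i * δ / 2) * Real.log 2 ≤ Real.log (⌊((2 : ℝ) ^ i) ^ δ⌋₊ : ℕ) := by
  have hiδ : 2 ≤ i * δ := by
    rw [div_le_iff₀ h0] at hi
    exact hi
  have e1 : ((2 : ℝ) ^ i) ^ δ = (2 : ℝ) ^ (i * δ) := by
    rw [← Real.rpow_natCast, ← Real.rpow_mul (by norm_num)]
  have e2 : (4 : ℝ) ≤ (2 : ℝ) ^ (i * δ) := by
    calc (4 : ℝ) = (2 : ℝ) ^ (2 : ℝ) := by
          rw [show (2 : ℝ) = ((2 : ℕ) : ℝ) by norm_num, Real.rpow_natCast]
          norm_num
      _ ≤ (2 : ℝ) ^ (i * δ) := Real.rpow_le_rpow_of_exponent_le (by norm_num) hiδ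
  have e3 : (2 : ℝ) ^ (i * δ) - 1 < (⌊((2 : ℝ) ^ i) ^ δ⌋₊ : ℕ) := by
    rw [e1]
    exact Nat.sub_one_lt_floor _
  refine ⟨?_, ?_, ?_⟩
  · have : (3 : ℝ) < (⌊((2 : ℝ) ^ i) ^ δ⌋₊ : ℕ) := by linarith
    have h3 : 3 < ⌊((2 : ℝ) ^ i) ^ δ⌋₊ := by exact_mod_cast this
    omega
  · have h2 : ((2 : ℝ) ^ i) ^ δ ≤ (2 : ℝ) ^ i := by
      have := Real.rpow_le_rpow_of_exponent_le (one_le_pow₀ (by norm_num : (1 : ℝ) ≤ 2) (n := i)) h1
      rwa [Real.rpow_one] at this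
    have h3 : ((⌊((2 : ℝ) ^ i) ^ δ⌋₊ : ℕ) : ℝ) ≤ ((2 ^ i : ℕ) : ℝ) := by
      push_cast
      exact (Nat.floor_le (by positivity)).trans h2
    exact_mod_cast h3
  · have h2 : (2 : ℝ) ^ (i * δ) / 2 ≤ (⌊((2 : ℝ) ^ i) ^ δ⌋₊ : ℕ) := by linarith
    have h3 : 0 < (2 : ℝ) ^ (i * δ) := by positivity
    have h4 := Real.log_le_log (by positivity) h2
    rw [Real.log_div h3.ne' (by norm_num), Real.log_rpow (by norm_num)] at h4
    have h5 : 0 < Real.log 2 := Real.log_pos (by norm_num)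
    nlinarith

lemma ss75_harm (L : ℕ) : ∑ i ∈ range L, ((i : ℝ))⁻¹ ≤ 1 + Real.log L := by
  have h1 : ∑ i ∈ range L, ((i : ℝ))⁻¹ ≤ ∑ i ∈ range (L + 1), ((i : ℝ))⁻¹ := by
    rw [sum_range_succ]
    have : (0 : ℝ) ≤ ((L : ℝ))⁻¹ := by positivity
    linarith
  have h2 : ∑ i ∈ range (L + 1), ((i : ℝ))⁻¹ = ((harmonic L : ℚ) : ℝ) := by
    rw [sum_range_succ', harmonic]
    push_cast
    simp
  rw [h2] at h1
  exact h1.trans (harmonic_le_one_add_log L)

/-- one scale -/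
lemma ss75_scale {δ : ℝ} (h0 : 0 < δ) (h1 : δ ≤ 1) {C : ℝ} (hC : 0 < C)
    (hsieve : ∀ w T x : ℕ, 2 ≤ w → w ≤ T →
      (((range T).filter fun s => (x + s).Coprime (primorial w)).card : ℝ) ≤ C * T / Real.log w)
    {z : ℕ → ℕ} {n N0 : ℕ} (hN0 : ∀ m ≥ N0, Real.log m ^ δ ≤ z m) (hn4 : 4 ≤ n)
    (hnN : 2 * N0 ≤ n) {A : Set ℕ} (hA : ∀ m ∈ A, m.Coprime (primorial (z m))) {i : ℕ}
    (hi : i < Nat.log 2 ⌊Real.log n⌋₊) (hi2 : 2 / δ ≤ i) :
    cnt A n i / 2 ^ i ≤ (2 * C / (δ * Real.log 2)) * ((i : ℝ))⁻¹ := by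
  have hn0 : (0 : ℝ) < n := by
    have : 0 < n := by omega
    exact_mod_cast this
  have hlog : Real.log n ≤ n / 2 := by
    have e1 := Real.log_le_sub_one_of_pos (show (0 : ℝ) < (n : ℝ) / 4 by positivity)
    rw [Real.log_div hn0.ne' (by norm_num)] at e1
    have e2 : Real.log 4 = 2 * Real.log 2 := by
      rw [show (4 : ℝ) = 2 ^ 2 by norm_num, Real.log_pow]
      norm_num
    have e3 := Real.log_two_lt_d9
    have e4 : (4 : ℝ) ≤ n := by exact_mod_cast hn4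
    linarith
  have hlogn0 : 0 ≤ Real.log n := Real.log_natCast_nonneg n
  have hfl : ⌊Real.log n⌋₊ ≠ 0 := by
    intro h
    rw [h, Nat.log_zero_right] at hi
    omega
  have hpow : 2 ^ (i + 1) ≤ ⌊Real.log n⌋₊ := Nat.pow_le_of_le_log hfl hi
  have hpow' : (2 : ℝ) ^ (i + 1) ≤ Real.log n := by
    have : ((2 ^ (i + 1) : ℕ) : ℝ) ≤ (⌊Real.log n⌋₊ : ℕ) := by exact_mod_cast hpow
    push_cast at this
    exact this.trans (Nat.floor_le hlogn0)
  have hpn : 2 ^ (i + 1) ≤ n := by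
    have : ((2 ^ (i + 1) : ℕ) : ℝ) ≤ (n : ℝ) := by
      push_cast
      linarith
    exact_mod_cast this
  obtain ⟨w1, w2, w3⟩ := ss75_w h0 h1 hi2
  set w := ⌊((2 : ℝ) ^ i) ^ δ⌋₊ with hw
  have hcop : ∀ m ∈ A, n - 2 ^ (i + 1) ≤ m → m.Coprime (primorial w) := by
    intro m hm hnm
    have hm2 : (n : ℝ) / 2 ≤ m := by
      have e1 : n ≤ m + 2 ^ (i + 1) := by omega
      have e2 : (n : ℝ) ≤ m + (2 : ℝ) ^ (i + 1) := by exact_mod_cast e1
      linarith
    have hmN : N0 ≤ m := by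
      have e1 : ((2 * N0 : ℕ) : ℝ) ≤ n := by exact_mod_cast hnN
      push_cast at e1
      have e2 : (N0 : ℝ) ≤ m := by linarith
      exact_mod_cast e2
    have hlm : Real.log n / 2 ≤ Real.log m := by
      have e1 := Real.log_le_log (by positivity) hm2
      rw [Real.log_div hn0.ne' (by norm_num)] at e1
      have e2 : Real.log 4 ≤ Real.log n := Real.log_le_log (by norm_num) (by exact_mod_cast hn4)
      have e3 : Real.log 4 = 2 * Real.log 2 := by
        rw [show (4 : ℝ) = 2 ^ 2 by norm_num, Real.log_pow]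
        norm_num
      linarith
    have h2i : (2 : ℝ) ^ i ≤ Real.log m := by
      rw [pow_succ] at hpow'
      linarith
    have hwz : w ≤ z m := by
      have e1 : (w : ℝ) ≤ ((2 : ℝ) ^ i) ^ δ := Nat.floor_le (by positivity)
      have e2 : ((2 : ℝ) ^ i) ^ δ ≤ Real.log m ^ δ :=
        Real.rpow_le_rpow (by positivity) h2i h0.le
      have e3 : (w : ℝ) ≤ z m := e1.trans (e2.trans (hN0 m hmN))
      exact_mod_cast e3
    exact Nat.Coprime.coprime_dvd_right (ss75_primorial_dvd hwz) (hA m hm)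
  have hc := (ss75_cnt_le A hpn hcop).trans (hsieve w (2 ^ i) (n - 2 ^ (i + 1)) w1 w2)
  have hi0 : (0 : ℝ) < i := lt_of_lt_of_le (by positivity) hi2
  have hl2 : 0 < Real.log 2 := Real.log_pos (by norm_num)
  have hden : 0 < (i * δ / 2) * Real.log 2 := by positivity
  have h2i : (0 : ℝ) < 2 ^ i := by positivity
  rw [div_le_iff₀ h2i]
  push_cast at hc
  calc cnt A n i ≤ C * 2 ^ i / Real.log w := hc
    _ ≤ C * 2 ^ i / ((i * δ / 2) * Real.log 2) :=
      div_le_div_of_nonneg_left (by positivity) hden w3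
    _ = 2 * C / (δ * Real.log 2) * ((i : ℝ))⁻¹ * 2 ^ i := by
      field_simp

theorem small_scales75 (δ : ℝ) (h0 : 0 < δ) (h1 : δ ≤ 1) : ∃ C : ℝ, 0 < C ∧ ∀ z : ℕ → ℕ,
    (∀ᶠ n : ℕ in atTop, Real.log n ^ δ ≤ z n) → ∀ᶠ n : ℕ in atTop, ∀ A : Set ℕ,
      (∀ m ∈ A, m.Coprime (primorial (z m))) →
      ∑ i ∈ range (Nat.log 2 ⌊Real.log n⌋₊), cnt A n i / 2 ^ i ≤
        C * Real.log (Real.log (Real.log n)) := by
  obtain ⟨C, hC, hsieve⟩ := sieve_int
  have hl2 : 0 < Real.log 2 := Real.log_pos (by norm_num)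
  set K : ℝ := 2 * C / (δ * Real.log 2) with hK
  have hK0 : 0 < K := by positivity
  refine ⟨⌈2 / δ⌉₊ + 3 * K, by positivity, fun z hz => ?_⟩
  obtain ⟨N0, hN0⟩ := eventually_atTop.1 hz
  have hlll : Tendsto (fun n : ℕ => Real.log (Real.log (Real.log n))) atTop atTop :=
    Real.tendsto_log_atTop.comp (Real.tendsto_log_atTop.comp
      (Real.tendsto_log_atTop.comp tendsto_natCast_atTop_atTop))
  have hll : Tendsto (fun n : ℕ => Real.log (Real.log n)) atTop atTop :=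
    Real.tendsto_log_atTop.comp (Real.tendsto_log_atTop.comp tendsto_natCast_atTop_atTop)
  have hl : Tendsto (fun n : ℕ => Real.log n) atTop atTop :=
    Real.tendsto_log_atTop.comp tendsto_natCast_atTop_atTop
  filter_upwards [eventually_ge_atTop 4, eventually_ge_atTop (2 * N0),
    hlll.eventually_ge_atTop 1, hll.eventually_ge_atTop 1, hl.eventually_ge_atTop 1]
    with n hn4 hnN h3 h4 h5 A hA
  set L := Nat.log 2 ⌊Real.log n⌋₊ with hL
  have hfl : ⌊Real.log n⌋₊ ≠ 0 := by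
    have : 1 ≤ ⌊Real.log n⌋₊ := Nat.le_floor (by simpa using h5)
    omega
  have hterm : ∀ i ∈ range L, cnt A n i / 2 ^ i ≤
      (if i < ⌈2 / δ⌉₊ then 1 else 0) + K * ((i : ℝ))⁻¹ := by
    intro i hi
    rw [mem_range] at hi
    have hi' : (0 : ℝ) ≤ ((i : ℝ))⁻¹ := by positivity
    split_ifs with hi3
    · have hpow : 2 ^ (i + 1) ≤ ⌊Real.log n⌋₊ := Nat.pow_le_of_le_log hfl hi
      have hpn : 2 ^ (i + 1) ≤ n := by
        have e1 : Real.log n ≤ n := (Real.log_le_self (by positivity))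
        have e2 : ((2 ^ (i + 1) : ℕ) : ℝ) ≤ (⌊Real.log n⌋₊ : ℕ) := by exact_mod_cast hpow
        have e3 : ((2 ^ (i + 1) : ℕ) : ℝ) ≤ (n : ℝ) :=
          e2.trans ((Nat.floor_le (by linarith)).trans e1)
        exact_mod_cast e3
      have e4 : cnt A n i / 2 ^ i ≤ 1 := by
        rw [div_le_one (by positivity)]
        exact ss75_cnt_le_pow A hpn
      have e5 : 0 ≤ K * ((i : ℝ))⁻¹ := by positivity
      linarith
    · rw [zero_add]
      refine ss75_scale h0 h1 hC hsieve hN0 hn4 hnN hA hi ?_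
      rw [not_lt] at hi3
      exact Nat.ceil_le.1 hi3
  refine (sum_le_sum hterm).trans ?_
  rw [sum_add_distrib, ← mul_sum]
  have hfirst : (∑ i ∈ range L, if i < ⌈2 / δ⌉₊ then (1 : ℝ) else 0) ≤ ⌈2 / δ⌉₊ := by
    rw [← sum_filter, sum_const, nsmul_eq_mul, mul_one]
    have : ((range L).filter fun i => i < ⌈2 / δ⌉₊) ⊆ range ⌈2 / δ⌉₊ := by
      intro i hi
      rw [mem_filter] at hi
      exact mem_range.2 hi.2
    have := card_le_card this
    rw [card_range] at this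
    exact_mod_cast this
  have hlogL : Real.log L ≤ 1 + Real.log (Real.log (Real.log n)) := by
    rcases Nat.eq_zero_or_pos L with hL0 | hL0
    · rw [hL0]
      simp
      linarith
    · have e1 : 2 ^ L ≤ ⌊Real.log n⌋₊ := Nat.pow_log_le_self 2 hfl
      have e2 : (2 : ℝ) ^ L ≤ Real.log n := by
        have : ((2 ^ L : ℕ) : ℝ) ≤ (⌊Real.log n⌋₊ : ℕ) := by exact_mod_cast e1
        push_cast at this
        exact this.trans (Nat.floor_le (by linarith))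
      have e3 := Real.log_le_log (by positivity) e2
      rw [Real.log_pow] at e3
      have e4 : (L : ℝ) ≤ 2 * Real.log (Real.log n) := by
        have e5 := Real.log_two_gt_d9
        have e6 : (0 : ℝ) ≤ L := Nat.cast_nonneg _
        nlinarith
      have e7 := Real.log_le_log (by exact_mod_cast hL0) e4
      rw [Real.log_mul (by norm_num) (by linarith)] at e7
      have e8 := Real.log_two_lt_d9
      linarith
  have hsum := ss75_harm L
  have hK1 : K * ∑ i ∈ range L, ((i : ℝ))⁻¹ ≤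
      K * (2 + Real.log (Real.log (Real.log n))) :=
    mul_le_mul_of_nonneg_left (by linarith) hK0.le
  have hc0 : (0 : ℝ) ≤ (⌈2 / δ⌉₊ : ℕ) := Nat.cast_nonneg _
  nlinarith

end Pool.Agent.GM53
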