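import Pool.Agent.GM53.Defs

set_option autoImplicit false

/-!
# GM53/SplitS: split_scales
-/

namespace Pool.Agent.GM53.SplitS

open Filter Topology Finset

theorem term_le (A : Set ℕ) (n i m : ℕ) (hm : m + 2 ^ i < n) :
    A.indicator (fun m => 1 / ((n : ℝ) - m)) m ≤ A.indicator (fun _ => (1 : ℝ)) m / 2 ^ i := by
  by_cases h : m ∈ A
  · rw [Set.indicator_of_mem h, Set.indicator_of_mem h]
    have h1 : ((m + 2 ^ i : ℕ) : ℝ) < n := by exact_mod_cast hm
    push_cast at h1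
    exact one_div_le_one_div_of_le (by positivity) (by linarith)
  · rw [Set.indicator_of_notMem h, Set.indicator_of_notMem h]
    simp

theorem key (A : Set ℕ) (n : ℕ) : ∀ k : ℕ, 2 ^ k ≤ n →
    ∑ m ∈ Ico (n - 2 ^ k) (n - 1), A.indicator (fun m => 1 / ((n : ℝ) - m)) m ≤
      ∑ i ∈ range k, cnt A n i / 2 ^ i := by
  intro k
  induction k with
  | zero => intro _; simp
  | succ k ih =>
    intro hk
    have hk' : 2 ^ k ≤ n := le_trans (Nat.pow_le_pow_right (by norm_num) (Nat.le_succ k)) hk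
    have hp : 1 ≤ 2 ^ k := Nat.one_le_two_pow
    have hpp : 2 ^ (k + 1) = 2 * 2 ^ k := by ring
    rw [sum_range_succ, ← sum_Ico_consecutive _ (show n - 2 ^ (k + 1) ≤ n - 2 ^ k by omega)
      (show n - 2 ^ k ≤ n - 1 by omega), add_comm]
    refine add_le_add (ih hk') ?_
    unfold cnt
    rw [sum_div]
    refine sum_le_sum fun m hm => ?_
    rw [mem_Ico] at hm
    exact term_le A n k m (by omega)

theorem split_scales (A : Set ℕ) (n : ℕ) (hn : 4 ≤ n) :
    recip A n ≤ 5 + ∑ i ∈ range (Nat.log 2 n - 1), cnt A n i / 2 ^ i := by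
  have hL2 : 2 ^ Nat.log 2 n ≤ n := Nat.pow_log_le_self 2 (by omega)
  have hL3 : n < 2 ^ (Nat.log 2 n + 1) := Nat.lt_pow_succ_log_self (by norm_num) n
  have hL : 1 ≤ Nat.log 2 n := by
    by_contra h
    have h0 : Nat.log 2 n = 0 := by omega
    rw [h0] at hL3
    omega
  obtain ⟨k, hk⟩ : ∃ k, Nat.log 2 n = k + 1 := ⟨Nat.log 2 n - 1, by omega⟩
  rw [hk] at hL2 hL3 ⊢
  rw [Nat.add_sub_cancel]
  have hp : 1 ≤ 2 ^ k := Nat.one_le_two_pow
  have hp1 : 2 ^ (k + 1) = 2 * 2 ^ k := by ring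
  have hp2 : 2 ^ (k + 1 + 1) = 4 * 2 ^ k := by ring
  have hkey := key A n k (by omega)
  unfold recip
  rw [range_eq_Ico, ← sum_Ico_consecutive _ (Nat.zero_le (n - 1)) (Nat.sub_le n 1),
    ← sum_Ico_consecutive _ (Nat.zero_le (n - 2 ^ k)) (show n - 2 ^ k ≤ n - 1 by omega)]
  have h1 : ∑ m ∈ Ico 0 (n - 2 ^ k), A.indicator (fun m => 1 / ((n : ℝ) - m)) m ≤ 4 := by
    have hb : ∀ m ∈ Ico 0 (n - 2 ^ k), A.indicator (fun m => 1 / ((n : ℝ) - m)) m ≤
        1 / 2 ^ k := by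
      intro m hm
      rw [mem_Ico] at hm
      refine (term_le A n k m (by omega)).trans ?_
      refine div_le_div_of_nonneg_right ?_ (by positivity)
      exact Set.indicator_le_self' (fun _ _ => zero_le_one) m
    refine (sum_le_card_nsmul _ _ _ hb).trans ?_
    rw [Nat.card_Ico, nsmul_eq_mul, mul_one_div, div_le_iff₀ (by positivity)]
    have h2 : (n - 2 ^ k - 0 : ℕ) ≤ 4 * 2 ^ k := by omega
    exact_mod_cast h2
  have h2 : ∑ m ∈ Ico (n - 1) n, A.indicator (fun m => 1 / ((n : ℝ) - m)) m ≤ 1 := by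
    have e : Ico (n - 1) n = {n - 1} := by
      ext m
      rw [mem_Ico, mem_singleton]
      omega
    rw [e, sum_singleton]
    by_cases h : n - 1 ∈ A
    · rw [Set.indicator_of_mem h, Nat.cast_sub (by omega)]
      simp
    · rw [Set.indicator_of_notMem h]
      exact zero_le_one
  linarith

end Pool.Agent.GM53.SplitS
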