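import Pool.Agent.GM53.Sieve
import Pool.Agent.GM53.Mert

/-!
# GM53/UpS: the mean at a large scale (helper12)
-/

set_option autoImplicit false

namespace Pool.Agent.GM53
namespace UpS

open Filter Topology Finset

lemma primorial_dvd {a b : ℕ} (h : a ≤ b) : primorial a ∣ primorial b := by
  unfold primorial
  exact Finset.prod_dvd_prod_of_subset _ _ _
    (Finset.filter_subset_filter _ (Finset.range_subset_range.2 (by omega)))

theorem cop_count : ∃ C : ℝ, 0 < C ∧ ∀ n i w : ℕ, 2 ≤ w → w ≤ 2 ^ i → 2 ^ (i + 1) ≤ n →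
    (((Ico (n - 2 ^ (i + 1)) (n - 2 ^ i)).filter fun m => m.Coprime (primorial w)).card : ℝ) ≤
      C * 2 ^ i / Real.log w := by
  obtain ⟨C, hC, h⟩ := sieve_int
  refine ⟨C, hC, fun n i w h2 hw hn => ?_⟩
  have hp : 2 ^ (i + 1) = 2 ^ i + 2 ^ i := by ring
  have e : (Ico (n - 2 ^ (i + 1)) (n - 2 ^ i)).filter (fun m => m.Coprime (primorial w)) =
      ((range (2 ^ i)).filter fun s => ((n - 2 ^ (i + 1)) + s).Coprime (primorial w)).image
        (fun s => (n - 2 ^ (i + 1)) + s) := by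
    ext m
    simp only [mem_filter, mem_Ico, mem_image, mem_range]
    constructor
    · rintro ⟨⟨h1, h3⟩, h4⟩
      refine ⟨m - (n - 2 ^ (i + 1)), ⟨by omega, by rwa [Nat.add_sub_cancel' h1]⟩,
        Nat.add_sub_cancel' h1⟩
    · rintro ⟨s, ⟨hs, hc⟩, rfl⟩
      exact ⟨⟨by omega, by omega⟩, hc⟩
  rw [e]
  refine (Nat.cast_le.2 card_image_le).trans ?_
  have := h w (2 ^ i) (n - 2 ^ (i + 1)) h2 hw
  push_cast at this
  exact this

lemma two_pow_le {n i : ℕ} (hn : 4 ≤ n) (hi : i + 1 < Nat.log 2 n) : 2 ^ (i + 2) ≤ n :=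
  (Nat.pow_le_pow_right (by norm_num) (by omega : i + 2 ≤ Nat.log 2 n)).trans
    (Nat.pow_log_le_self 2 (by omega))

lemma block_mem {n i m : ℕ} (hn : 4 ≤ n) (hi : i + 1 < Nat.log 2 n)
    (hm : m ∈ Ico (n - 2 ^ (i + 1)) (n - 2 ^ i)) :
    n ≤ 2 * m ∧ m ≤ n ∧ Real.log n / 2 ≤ Real.log m ∧ Real.log m ≤ Real.log n := by
  have h1 : 2 ^ (i + 2) ≤ n := two_pow_le hn hi
  have h2 : 2 ^ (i + 2) = 2 * 2 ^ (i + 1) := by ring
  rw [mem_Ico] at hm
  have h3 : n ≤ 2 * m := by omega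
  have h4 : m ≤ n := by omega
  have hm0 : (0 : ℝ) < m := by exact_mod_cast (by omega : 0 < m)
  have hn0 : (4 : ℝ) ≤ n := by exact_mod_cast hn
  refine ⟨h3, h4, ?_, Real.log_le_log hm0 (by exact_mod_cast h4)⟩
  have h5 : Real.log n ≤ Real.log 2 + Real.log m := by
    rw [← Real.log_mul (by norm_num) hm0.ne']
    exact Real.log_le_log (by linarith) (by exact_mod_cast h3)
  have h6 : Real.log 4 = 2 * Real.log 2 := by
    rw [show (4 : ℝ) = 2 ^ 2 by norm_num, Real.log_pow]; norm_num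
  have h7 : Real.log 4 ≤ Real.log n := Real.log_le_log (by norm_num) hn0
  linarith

lemma floor_rpow {x δ : ℝ} (hx : 1 ≤ x) (h1 : δ ≤ 1) (h2 : 2 ≤ x ^ (δ / 2)) :
    2 ≤ ⌊x ^ δ⌋₊ ∧ (⌊x ^ δ⌋₊ : ℝ) ≤ x ∧ δ / 2 * Real.log x ≤ Real.log ⌊x ^ δ⌋₊ := by
  have hx0 : 0 < x := by linarith
  have e : x ^ δ = (x ^ (δ / 2)) ^ 2 := by
    rw [← Real.rpow_natCast, ← Real.rpow_mul hx0.le]
    norm_num
  have h3 : (x ^ (δ / 2)) ≤ ⌊x ^ δ⌋₊ := by
    have := Nat.lt_floor_add_one (x ^ δ)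
    rw [e] at this ⊢
    nlinarith
  refine ⟨?_, ?_, ?_⟩
  · exact Nat.le_floor (by push_cast; rw [e]; nlinarith)
  · refine (Nat.floor_le (Real.rpow_nonneg hx0.le _)).trans ?_
    calc x ^ δ ≤ x ^ (1 : ℝ) := Real.rpow_le_rpow_of_exponent_le hx h1
      _ = x := Real.rpow_one x
  · rw [← Real.log_rpow hx0]
    exact Real.log_le_log (Real.rpow_pos_of_pos hx0 _) h3

lemma tendsto_L : Tendsto (fun n : ℕ => Real.log n) atTop atTop :=
  Real.tendsto_log_atTop.comp tendsto_natCast_atTop_atTop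

theorem mean_le' (δ : ℝ) (h0 : 0 < δ) (h1 : δ ≤ 1) : ∃ C : ℝ, 0 < C ∧ ∀ z : ℕ → ℕ,
    (∀ᶠ n : ℕ in atTop, Real.log n ^ δ ≤ z n ∧ (z n : ℝ) ≤ Real.log n / 2) → ∀ᶠ n : ℕ in atTop,
      ∀ i : ℕ, Nat.log 2 ⌊Real.log n⌋₊ ≤ i → i + 1 < Nat.log 2 n →
      ∑ m ∈ Ico (n - 2 ^ (i + 1)) (n - 2 ^ i), prob z m ≤ C * 2 ^ i / Real.log n := by
  obtain ⟨C1, hC1, hcc⟩ := cop_count
  obtain ⟨C2, hC2, hmt⟩ := mert_le
  refine ⟨2 * C2 * (4 * C1 / δ), by positivity, fun z hz => ?_⟩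
  obtain ⟨N0, hN0⟩ := eventually_atTop.1 hz
  have hlog : Tendsto (fun n : ℕ => Real.log n / 2) atTop atTop :=
    tendsto_L.atTop_div_const (by norm_num)
  have hpow : Tendsto (fun n : ℕ => (Real.log n / 2) ^ (δ / 2)) atTop atTop :=
    (tendsto_rpow_atTop (by positivity)).comp hlog
  filter_upwards [eventually_ge_atTop (2 * N0), eventually_ge_atTop 4,
    hlog.eventually_ge_atTop 2, hpow.eventually_ge_atTop 2] with n hn1 hn2 hn3 hn4
  intro i hLi hi
  set L : ℝ := Real.log n with hL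
  obtain ⟨hw2, hwx, hwl⟩ := floor_rpow (x := L / 2) (by linarith) h1 hn4
  set w := ⌊(L / 2) ^ δ⌋₊ with hw
  have hL4 : 4 ≤ L := by linarith
  have hLL : 0 < Real.log L := Real.log_pos (by linarith)
  have hl4 : Real.log 4 = 2 * Real.log 2 := by
    rw [show (4 : ℝ) = 2 ^ 2 by norm_num, Real.log_pow]; norm_num
  have hl2 : 0 < Real.log 2 := Real.log_pos (by norm_num)
  have hlw : δ / 4 * Real.log L ≤ Real.log w := by
    have e1 : Real.log (L / 2) = Real.log L - Real.log 2 := Real.log_div (by linarith) (by norm_num)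
    have e2 : Real.log 4 ≤ Real.log L := Real.log_le_log (by norm_num) hL4
    have e3 : 1 / 2 * Real.log L ≤ Real.log (L / 2) := by rw [e1]; linarith
    calc δ / 4 * Real.log L = δ / 2 * (1 / 2 * Real.log L) := by ring
      _ ≤ δ / 2 * Real.log (L / 2) := mul_le_mul_of_nonneg_left e3 (by positivity)
      _ ≤ _ := hwl
  have hw2i : w ≤ 2 ^ i := by
    have a1 : ⌊L⌋₊ < 2 ^ (Nat.log 2 ⌊L⌋₊ + 1) := Nat.lt_pow_succ_log_self (by norm_num) _
    have a2 : (⌊L⌋₊ : ℝ) + 1 ≤ 2 ^ (Nat.log 2 ⌊L⌋₊ + 1) := by exact_mod_cast a1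
    have a3 := Nat.lt_floor_add_one L
    have a4 : (2 : ℝ) ^ (Nat.log 2 ⌊L⌋₊ + 1) = 2 * 2 ^ (Nat.log 2 ⌊L⌋₊) := by ring
    have a5 : (2 : ℝ) ^ (Nat.log 2 ⌊L⌋₊) ≤ 2 ^ i := pow_le_pow_right₀ (by norm_num) hLi
    have a6 : (w : ℝ) ≤ 2 ^ i := by linarith
    exact_mod_cast a6
  have hlwpos : 0 < Real.log w := lt_of_lt_of_le (by positivity) hlw
  set B : ℝ := 2 * C2 * Real.log L / L with hB
  have hBn : 0 ≤ B := by positivity
  have key : ∀ m ∈ Ico (n - 2 ^ (i + 1)) (n - 2 ^ i),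
      prob z m ≤ if m.Coprime (primorial w) then B else 0 := by
    intro m hm
    obtain ⟨b1, b2, b3, b4⟩ := block_mem hn2 hi hm
    obtain ⟨c1, c2⟩ := hN0 m (by omega)
    have hlm : 0 < Real.log m := by linarith
    have c3 : (w : ℝ) ≤ z m := by
      refine (Nat.floor_le (Real.rpow_nonneg (by linarith) _)).trans ?_
      exact (Real.rpow_le_rpow (by linarith) b3 h0.le).trans c1
    have c4 : w ≤ z m := by exact_mod_cast c3
    unfold prob
    by_cases hc : m.Coprime (primorial (z m))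
    · rw [if_pos hc, if_pos (Nat.Coprime.of_dvd_right (primorial_dvd c4) hc)]
      refine (min_le_right _ _).trans ?_
      have d1 : mert (z m) ≤ C2 * Real.log (z m) := hmt _ (by omega)
      have d2 : Real.log (z m) ≤ Real.log L := by
        refine Real.log_le_log (by exact_mod_cast (by omega : 0 < z m)) ?_
        linarith
      rw [hB, div_le_div_iff₀ hlm (by linarith)]
      have d3 : mert (z m) ≤ C2 * Real.log L := d1.trans (mul_le_mul_of_nonneg_left d2 hC2.le)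
      calc mert (z m) * L ≤ C2 * Real.log L * L := mul_le_mul_of_nonneg_right d3 (by linarith)
        _ = 2 * C2 * Real.log L * (L / 2) := by ring
        _ ≤ 2 * C2 * Real.log L * Real.log m := mul_le_mul_of_nonneg_left b3 (by positivity)
    · rw [if_neg hc]
      split_ifs
      · exact hBn
      · exact le_rfl
  refine (sum_le_sum key).trans ?_
  rw [← sum_filter, sum_const, nsmul_eq_mul]
  have h2i : 2 ^ (i + 1) ≤ n := (Nat.pow_le_pow_right (by norm_num) (by omega)).trans (two_pow_le hn2 hi)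
  have hcnt := hcc n i w hw2 hw2i h2i
  have hcnt2 : (((Ico (n - 2 ^ (i + 1)) (n - 2 ^ i)).filter fun m => m.Coprime (primorial w)).card : ℝ) ≤
      C1 * 2 ^ i / (δ / 4 * Real.log L) := by
    refine hcnt.trans ?_
    exact div_le_div_of_nonneg_left (by positivity) (by positivity) hlw
  refine (mul_le_mul_of_nonneg_right hcnt2 hBn).trans (le_of_eq ?_)
  rw [hB]
  have hL0 : L ≠ 0 := by linarith
  field_simp

end UpS
end Pool.Agent.GM53
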