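import Pool.Agent.GM53.Sieve
import Pool.Agent.GM53.Mert
import Pool.Agent.GM53.LargeS
import Pool.Agent.GM53.SplitS
import Pool.Agent.GM53.SmallS75
import Pool.Agent.GM53.UpS

/-!
# GM53/UpDet: the deterministic part of the upper bound (STUB)

Scales: `h = n - m ∈ (2^i, 2^(i+1)]`, that is `m ∈ [n - 2^(i+1), n - 2^i)`, `i + 1 < Nat.log 2 n`. `Lg n = Nat.log 2 ⌊log n⌋₊`:
the scales `i < Lg n` have `h ≤ log n`.
-/

set_option autoImplicit false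

namespace Pool.Agent.GM53

open Filter Topology Finset

noncomputable def Lg (n : ℕ) : ℕ := Nat.log 2 ⌊Real.log n⌋₊

/-- PROOF. The term `m = n - 1` is at most `1`; for `h ∈ (2^i, 2^(i+1)]` the term is at most `1/2^i`; the terms with
`h > 2^(Nat.log 2 n - 1) > n/4` are at most `4/n` each. -/
theorem split_scales (A : Set ℕ) (n : ℕ) (hn : 4 ≤ n) :
    recip A n ≤ 5 + ∑ i ∈ range (Nat.log 2 n - 1), cnt A n i / 2 ^ i :=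
  SplitS.split_scales A n hn

/-- SMALL SCALES. PROOF. For large `n` and `i < Lg n`, `m ∈ [n - 2^(i+1), n - 2^i)`: `m ≥ n/2`, `m ≥ √n`, so
`z m ≥ (log m)^δ ≥ (log n / 2)^δ ≥ w_i := ⌊(2^i/2)^δ⌋` and `m` is coprime to `primorial (w_i)` (`w_i ≤ 2^i` because `δ ≤ 1`);
`sieve_int` (interval of length `2^i`): `cnt ≤ C 2^i / log w_i ≤ C' 2^i / (δ i)` for `i ≥ i₀(δ)` (and `≤ 2^i` always).
Sum: `i₀ + (C'/δ) ∑_{i ≤ Lg n} 1/i ≤ C'' log (Lg n) ≤ C''' log log log n`. -/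
theorem small_scales (δ : ℝ) (h0 : 0 < δ) (h1 : δ ≤ 1) : ∃ C : ℝ, 0 < C ∧ ∀ z : ℕ → ℕ,
    (∀ᶠ n : ℕ in atTop, Real.log n ^ δ ≤ z n) → ∀ᶠ n : ℕ in atTop, ∀ A : Set ℕ,
      (∀ m ∈ A, m.Coprime (primorial (z m))) →
      ∑ i ∈ range (Lg n), cnt A n i / 2 ^ i ≤ C * Real.log (Real.log (Real.log n)) :=
  small_scales75 δ h0 h1

/-- MEAN AT A LARGE SCALE. PROOF. `prob z m ≤ mert (z m) / log m ≤ C log (z m) / log m ≤ 2 C log log n / log n` (`z m ≤ log m`) if `m` is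
coprime to `primorial (z m)` and `0` otherwise; `z m ≥ (log n / 2)^δ ≥ w := ⌊(log n / 2)^δ⌋`, `w ≤ 2^i` (as `2^i > log n / 2`, `δ ≤ 1`),
so `sieve_int` bounds the number of such `m` by `C 2^i / log w ≤ C' 2^i / (δ log log n)`. -/
theorem mean_le (δ : ℝ) (h0 : 0 < δ) (h1 : δ ≤ 1) : ∃ C : ℝ, 0 < C ∧ ∀ z : ℕ → ℕ,
    (∀ᶠ n : ℕ in atTop, Real.log n ^ δ ≤ z n ∧ (z n : ℝ) ≤ Real.log n / 2) → ∀ᶠ n : ℕ in atTop,
      ∀ i : ℕ, Lg n ≤ i → i + 1 < Nat.log 2 n →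
      ∑ m ∈ Ico (n - 2 ^ (i + 1)) (n - 2 ^ i), prob z m ≤ C * 2 ^ i / Real.log n :=
  UpS.mean_le' δ h0 h1

/-- SUM OVER THE LARGE SCALES. PROOF. `∑_{i < Nat.log 2 n} (2 C / log n) ≤ 2 C / log 2` and
`∑_{i ≥ Lg n} 5 log n / 2^i ≤ 10 log n / 2^(Lg n) ≤ 20 + …` (`2^(Lg n) > ⌊log n⌋ / 2`). -/
theorem large_scales (C : ℝ) (hC : 0 < C) : ∃ C' : ℝ, 0 < C' ∧ ∀ᶠ n : ℕ in atTop, ∀ A : Set ℕ,
    (∀ i : ℕ, Lg n ≤ i → i + 1 < Nat.log 2 n →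
      cnt A n i ≤ 2 * (C * 2 ^ i / Real.log n) + 5 * Real.log n) →
    ∑ i ∈ Ico (Lg n) (Nat.log 2 n - 1), cnt A n i / 2 ^ i ≤ C' := by
  exact large_scales_S C hC

end Pool.Agent.GM53
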